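import Mathlib

/-!
# Balanced products
-/

open Finset

namespace Pool.Agent.H46.KW

/-- The product of `q` natural numbers with sum `N` which are as equal as possible. -/
def bal (q N : ℕ) : ℕ := (N / q) ^ (q - N % q) * (N / q + 1) ^ (N % q)

lemma bal_step {q : ℕ} (hq : 1 ≤ q) (N : ℕ) : bal q (N + 1) * (N / q) = bal q N * (N / q + 1) := by
  have hR : N % q < q := Nat.mod_lt _ hq
  have hN : q * (N / q) + N % q = N := Nat.div_add_mod N q
  set s := N / q with hs
  set R := N % q with hRdef
  unfold bal
  rw [← hs, ← hRdef]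
  rcases Nat.lt_or_ge (R + 1) q with h | h
  · have h1 : (N + 1) / q = s := by
      rw [Nat.div_eq_iff (by omega)]
      constructor
      · nlinarith
      · rw [mul_comm] at hN
        omega
    have h2 : (N + 1) % q = R + 1 := by
      have := Nat.div_add_mod (N + 1) q
      rw [h1] at this
      omega
    rw [h1, h2]
    obtain ⟨k, hk⟩ : ∃ k, q = R + 1 + k := ⟨q - (R + 1), by omega⟩
    rw [show q - (R + 1) = k by omega, show q - R = k + 1 by omega]
    ring
  · have hRq : R + 1 = q := by omega
    have h1 : (N + 1) / q = s + 1 := by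
      rw [Nat.div_eq_iff (by omega)]
      constructor
      · rw [add_mul, mul_comm s q]
        omega
      · rw [add_mul, mul_comm s q]
        omega
    have h2 : (N + 1) % q = 0 := by
      have h3 := Nat.div_add_mod (N + 1) q
      rw [h1, mul_add] at h3
      omega
    rw [h1, h2, Nat.sub_zero, pow_zero, mul_one, show q - R = 1 by omega]
    conv_lhs => rw [← hRq]
    ring

lemma bal_zero {q N : ℕ} (h : N < q) : bal q N = 0 := by
  unfold bal
  rw [Nat.div_eq_of_lt h, Nat.mod_eq_of_lt h, zero_pow (by omega), zero_mul]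

lemma bal_mono_succ {q : ℕ} (hq : 1 ≤ q) (N : ℕ) : bal q N ≤ bal q (N + 1) := by
  rcases Nat.lt_or_ge N q with h | h
  · rw [bal_zero h]
    exact Nat.zero_le _
  · have h1 := bal_step hq N
    have h2 : 1 ≤ N / q := (Nat.one_le_div_iff hq).2 h
    by_contra hcon
    push Not at hcon
    have : bal q (N + 1) * (N / q) < bal q N * (N / q + 1) :=
      Nat.mul_lt_mul_of_lt_of_le hcon (Nat.le_succ _) (Nat.succ_pos _)
    omega

lemma bal_mono {q : ℕ} (hq : 1 ≤ q) {N M : ℕ} (h : N ≤ M) : bal q N ≤ bal q M := by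
  induction M, h using Nat.le_induction with
  | base => exact le_rfl
  | succ M _ ih => exact ih.trans (bal_mono_succ hq M)

lemma bal_mul_eq (q S : ℕ) (hq : 1 ≤ q) :
    S / (q + 1) * bal q (S - S / (q + 1)) = bal (q + 1) S := by
  have hR : S % (q + 1) < q + 1 := Nat.mod_lt _ (by omega)
  have hS : (q + 1) * (S / (q + 1)) + S % (q + 1) = S := Nat.div_add_mod S (q + 1)
  set m := S / (q + 1) with hm
  set R := S % (q + 1) with hRdef
  unfold bal
  rw [← hm, ← hRdef]
  have hSm : S - m = q * m + R := by
    rw [add_mul, one_mul] at hS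
    omega
  rw [hSm]
  rcases Nat.lt_or_ge R q with h | h
  · have h1 : (q * m + R) / q = m := by
      rw [Nat.mul_add_div (by omega), Nat.div_eq_of_lt h, add_zero]
    have h2 : (q * m + R) % q = R := by
      rw [Nat.mul_add_mod, Nat.mod_eq_of_lt h]
    rw [h1, h2, show q + 1 - R = (q - R) + 1 by omega]
    ring
  · have hRq : R = q := by omega
    have h1 : (q * m + R) / q = m + 1 := by
      rw [hRq, Nat.mul_add_div (by omega), Nat.div_self (by omega)]
    have h2 : (q * m + R) % q = 0 := by
      rw [hRq, Nat.mul_add_mod, Nat.mod_self]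
    rw [h1, h2, hRq, Nat.sub_zero, pow_zero, mul_one, show q + 1 - q = 1 by omega, pow_one]

lemma bal_mul {q : ℕ} (hq : 1 ≤ q) (n N : ℕ) : n * bal q N ≤ bal (q + 1) (N + n) := by
  obtain ⟨S, hS⟩ : ∃ S, S = N + n := ⟨_, rfl⟩
  rw [← hS]
  have hNS : N = S - n := by omega
  have hnS : n ≤ S := by omega
  rw [hNS]
  clear hNS hS N
  set m := S / (q + 1) with hm
  have hmS : m ≤ S := Nat.div_le_self _ _
  rw [← bal_mul_eq q S hq, ← hm]
  have hS1 : (q + 1) * m ≤ S := Nat.mul_div_le S (q + 1)
  have hS2 : S < (q + 1) * (m + 1) := by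
    have := Nat.lt_mul_div_succ S (show 0 < q + 1 by omega)
    rwa [← hm] at this
  rcases Nat.le_total n m with h | h
  · -- increasing part
    obtain ⟨k, hk⟩ : ∃ k, m = n + k := ⟨m - n, by omega⟩
    have key : ∀ j, j ≤ k → n * bal q (S - n) ≤ (n + j) * bal q (S - (n + j)) := by
      intro j
      induction j with
      | zero => intro _; exact le_rfl
      | succ j ih =>
        intro hj
        refine (ih (by omega)).trans ?_
        have h1 := bal_step hq (S - (n + (j + 1)))
        rw [show S - (n + (j + 1)) + 1 = S - (n + j) by omega] at h1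
        set M := S - (n + (j + 1)) with hM
        have h2 : n + (j + 1) ≤ M / q := by
          rw [Nat.le_div_iff_mul_le (by omega)]
          have h3 : (q + 1) * (n + (j + 1)) ≤ S :=
            (Nat.mul_le_mul_left _ (by omega)).trans hS1
          have h4 : (q + 1) * (n + (j + 1)) = (n + (j + 1)) * q + (n + (j + 1)) := by ring
          omega
        set s := M / q
        have h5 : (n + j) * bal q (S - (n + j)) * s ≤ (n + (j + 1)) * bal q M * s := by
          calc (n + j) * bal q (S - (n + j)) * s = (n + j) * (bal q (S - (n + j)) * s) := by ring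
            _ = (n + j) * (bal q M * (s + 1)) := by rw [h1]
            _ = bal q M * ((n + j) * (s + 1)) := by ring
            _ ≤ bal q M * ((n + (j + 1)) * s) := by
                apply Nat.mul_le_mul_left
                nlinarith
            _ = (n + (j + 1)) * bal q M * s := by ring
        exact Nat.le_of_mul_le_mul_right h5 (by omega)
    have := key k le_rfl
    rwa [← hk] at this
  · -- decreasing part
    obtain ⟨k, hk⟩ : ∃ k, n = m + k := ⟨n - m, by omega⟩
    rw [hk]
    rw [hk] at hnS
    clear hk h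
    induction k with
    | zero => exact le_rfl
    | succ k ih =>
      refine le_trans ?_ (ih (by omega))
      have h1 := bal_step hq (S - (m + (k + 1)))
      rw [show S - (m + (k + 1)) + 1 = S - (m + k) by omega] at h1
      set M := S - (m + (k + 1)) with hM
      have h2 : M / q ≤ m := by
        rw [← Nat.lt_succ_iff, Nat.div_lt_iff_lt_mul (by omega)]
        have h4 : (q + 1) * (m + 1) = (m + 1) * q + (m + 1) := by ring
        rw [Nat.succ_eq_add_one]
        omega
      rcases Nat.eq_zero_or_pos (M / q) with h0 | hpos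
      · rw [h0] at h1
        have h3 : bal q M = 0 := by
          simp only [mul_zero, zero_add, mul_one] at h1
          exact h1.symm
        rw [h3, mul_zero]
        exact Nat.zero_le _
      · set s := M / q
        have h5 : (m + (k + 1)) * bal q M * s ≤ (m + k) * bal q (S - (m + k)) * s := by
          calc (m + (k + 1)) * bal q M * s = bal q M * ((m + (k + 1)) * s) := by ring
            _ ≤ bal q M * ((m + k) * (s + 1)) := by
                apply Nat.mul_le_mul_left
                nlinarith
            _ = (m + k) * (bal q M * (s + 1)) := by ring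
            _ = (m + k) * (bal q (S - (m + k)) * s) := by rw [h1]
            _ = (m + k) * bal q (S - (m + k)) * s := by ring
        exact Nat.le_of_mul_le_mul_right h5 hpos

lemma bal_mul_self {q : ℕ} (hq : 1 ≤ q) (a : ℕ) : bal q (q * a) = a ^ q := by
  unfold bal
  rw [Nat.mul_div_cancel_left _ (by omega), Nat.mul_mod_right, Nat.sub_zero, pow_zero, mul_one]

lemma bal_mul_self_add_one {q : ℕ} (hq : 1 ≤ q) (a : ℕ) :
    bal q (q * a + 1) = a ^ (q - 1) * (a + 1) := by
  rcases Nat.lt_or_ge 1 q with h | h
  · unfold bal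
    rw [Nat.mul_add_div (by omega), Nat.div_eq_of_lt h, Nat.mul_add_mod, Nat.mod_eq_of_lt h]
    simp
  · have : q = 1 := by omega
    subst this
    unfold bal
    simp [Nat.mod_one]

lemma bal_one (N : ℕ) : bal 1 N = N := by
  unfold bal
  simp [Nat.mod_one]

/-- Tangent line inequality. -/
lemma tangent (n : ℕ) {x z : ℝ} (hx : 0 ≤ x) (hz : 0 ≤ z) :
    (n + 1) * x * z ^ n ≤ x ^ (n + 1) + n * z ^ (n + 1) := by
  rcases hz.eq_or_lt with rfl | hz
  · rcases n with _ | n
    · simp
    · simp only [ne_eq, Nat.succ_ne_zero, not_false_eq_true, zero_pow, mul_zero]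
      positivity
  · have h := one_add_mul_le_pow (a := x / z - 1) (by
      have : 0 ≤ x / z := by positivity
      linarith) (n + 1)
    have h1 : (1 + (x / z - 1)) = x / z := by ring
    rw [h1, div_pow] at h
    have hzn : 0 < z ^ (n + 1) := by positivity
    rw [le_div_iff₀ hzn] at h
    push_cast at h
    have h2 : (1 + ((n : ℝ) + 1) * (x / z - 1)) * z ^ (n + 1)
        = (n + 1) * x * z ^ n - n * z ^ (n + 1) := by
      field_simp
      ring
    rw [h2] at h
    linarith

/-- The balanced product is at least almost the power of the mean. -/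
lemma bal_lower {q : ℕ} (hq : 1 ≤ q) {N : ℕ} (hN : q ≤ N) :
    (N / q : ℝ) ^ q * (1 - (q ^ 2 / (4 * N)) ^ 2) ≤ (bal q N : ℝ) := by
  have hR : N % q < q := Nat.mod_lt _ hq
  have hNs : q * (N / q) + N % q = N := Nat.div_add_mod N q
  have hspos : 1 ≤ N / q := (Nat.one_le_div_iff hq).2 hN
  unfold bal
  set s := N / q with hs
  set R := N % q with hRdef
  have hq0 : (0 : ℝ) < q := by exact_mod_cast hq
  have hN0 : (0 : ℝ) < N := by exact_mod_cast (show 0 < N by omega)
  have hNR : (q : ℝ) * s + R = N := by exact_mod_cast hNs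
  have hRq : (R : ℝ) ≤ q := by exact_mod_cast hR.le
  have hR0 : (0 : ℝ) ≤ R := by positivity
  have hRN : (R : ℝ) ≤ N := by
    have : (0 : ℝ) ≤ (q : ℝ) * s := by positivity
    linarith
  -- Bernoulli twice
  have b1 := one_add_mul_le_pow (a := -(R / N : ℝ)) (by
    have : (R : ℝ) / N ≤ 1 := by rw [div_le_one hN0]; exact hRN
    linarith) (q - R)
  have b2 := one_add_mul_le_pow (a := ((q - R) / N : ℝ)) (by
    have : (0 : ℝ) ≤ (q - R) / N := div_nonneg (by linarith) hN0.le
    linarith) R
  have c1 : (1 + -(R / N : ℝ)) = q * s / N := by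
    rw [← hNR]
    rw [← hNR] at hN0
    field_simp
    ring
  have c2 : (1 + ((q - R) / N : ℝ)) = q * (s + 1) / N := by
    rw [← hNR]
    rw [← hNR] at hN0
    field_simp
    ring
  rw [c1] at b1
  rw [c2] at b2
  have hqR : ((q - R : ℕ) : ℝ) = q - R := by
    rw [Nat.cast_sub hR.le]
  rw [hqR] at b1
  set w : ℝ := R * (q - R) / N with hw
  have e1 : (1 + ((q : ℝ) - R) * -(R / N)) = 1 - w := by rw [hw]; ring
  have e2 : (1 + (R : ℝ) * ((q - R) / N)) = 1 + w := by rw [hw]; ring
  rw [e1] at b1
  rw [e2] at b2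
  have hw0 : 0 ≤ w := by
    rw [hw]
    exact div_nonneg (mul_nonneg hR0 (by linarith)) hN0.le
  have hwb : w ≤ q ^ 2 / (4 * N) := by
    rw [hw, div_le_div_iff₀ hN0 (by positivity)]
    nlinarith [sq_nonneg ((q : ℝ) - 2 * R)]
  have hprod : (q * s / N : ℝ) ^ (q - R) * (q * (s + 1) / N) ^ R * (N / q) ^ q
      = s ^ (q - R) * (s + 1) ^ R := by
    have : (q : ℕ) = (q - R) + R := by omega
    conv_lhs => rw [show (N / q : ℝ) ^ q = (N / q) ^ ((q - R) + R) by rw [← this]]
    rw [pow_add]
    have e3 : (q * s / N : ℝ) ^ (q - R) * (N / q) ^ (q - R) = s ^ (q - R) := by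
      rw [← mul_pow]; congr 1; field_simp
    have e4 : (q * (s + 1) / N : ℝ) ^ R * (N / q) ^ R = (s + 1) ^ R := by
      rw [← mul_pow]; congr 1; field_simp
    rw [← e3, ← e4]
    ring
  push_cast
  rw [← hprod]
  have hNq : (0 : ℝ) ≤ (N / q) ^ q := by positivity
  rw [mul_comm]
  apply mul_le_mul_of_nonneg_right _ hNq
  have hx0 : (0 : ℝ) ≤ (q * s / N) ^ (q - R) := by positivity
  have hy0 : (0 : ℝ) ≤ 1 + w := by linarith
  have hsq : w ^ 2 ≤ (q ^ 2 / (4 * N)) ^ 2 := pow_le_pow_left₀ hw0 hwb 2
  rcases le_or_gt w 1 with hw1 | hw1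
  · have := mul_le_mul b1 b2 hy0 hx0
    nlinarith
  · have h1 : (1 : ℝ) < w ^ 2 := by nlinarith
    have h2 : (0 : ℝ) ≤ (q * s / N) ^ (q - R) * (q * (s + 1) / N) ^ R := by positivity
    linarith

end Pool.Agent.H46.KW
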