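import Pool.Agent.H46.KW.LemX

/-!
# One vertex more than a balanced complete multipartite graph
-/

open Finset

namespace Pool.Agent.H46.KW

open Pool.Agent.H23.KT

variable {V : Type*} [DecidableEq V] {G : SimpleGraph V}

section

variable {ι : Type*} [Fintype ι] [DecidableEq ι]

/-- `f` is a clique on the indices in `J`. -/
def clf (G : SimpleGraph V) (J : Finset ι) (f : ι → V) : Prop :=
  ∀ i ∈ J, ∀ j ∈ J, i ≠ j → G.Adj (f i) (f j)

/-- Cliques as choice functions. -/
lemma surj {A : ι → Finset V} (hdis : ∀ i j, i ≠ j → Disjoint (A i) (A j))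
    (hind : ∀ i, ∀ u ∈ A i, ∀ w ∈ A i, ¬ G.Adj u w) (g : ι → V) (hg : ∀ i, g i ∈ A i)
    {J : Finset ι} {T : Finset V} (hT : G.IsClique (T : Set V)) (hcard : T.card = J.card)
    (hcov : ∀ t ∈ T, ∃ i ∈ J, t ∈ A i) :
    ∃ f ∈ Fintype.piFinset A, (∀ i, i ∉ J → f i = g i) ∧ J.image f = T ∧ clf G J f := by
  classical
  have hle : ∀ i ∈ J, (T ∩ A i).card ≤ 1 := by
    intro i _
    rw [card_le_one]
    intro u hu w hw
    rw [mem_inter] at hu hw
    by_contra hne
    exact hind i u hu.2 w hw.2 (hT (mem_coe.2 hu.1) (mem_coe.2 hw.1) hne)
  have hex : ∀ i, ∃ t, i ∈ J → t ∈ T ∧ t ∈ A i := by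
    intro i
    by_cases hi : i ∈ J
    swap
    · exact ⟨g i, fun h => absurd h hi⟩
    by_contra hcon
    push Not at hcon
    replace hcon : ∀ t, t ∈ T → t ∉ A i := fun t => (hcon t).2
    have h1 : T ⊆ (J.erase i).biUnion (fun j => T ∩ A j) := by
      intro t ht
      obtain ⟨j, hj, htj⟩ := hcov t ht
      rw [mem_biUnion]
      refine ⟨j, mem_erase.2 ⟨?_, hj⟩, mem_inter.2 ⟨ht, htj⟩⟩
      rintro rfl
      exact hcon t ht htj
    have h2 : ((J.erase i).biUnion (fun j => T ∩ A j)).card ≤ (J.erase i).card * 1 :=
      card_biUnion_le_card_mul _ _ _ (fun j hj => hle j (mem_of_mem_erase hj))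
    have h3 := card_le_card h1
    have h4 := card_erase_add_one hi
    omega
  choose t ht using hex
  have ht1 : ∀ i ∈ J, t i ∈ T := fun i hi => (ht i hi).1
  have ht2 : ∀ i ∈ J, t i ∈ A i := fun i hi => (ht i hi).2
  refine ⟨fun i => if i ∈ J then t i else g i, ?_, ?_, ?_, ?_⟩
  · rw [Fintype.mem_piFinset]
    intro i
    by_cases hi : i ∈ J
    · simp only [hi, if_true]; exact ht2 i hi
    · simp only [hi, if_false]; exact hg i
  · intro i hi
    simp only [hi, if_false]
  · apply eq_of_subset_of_card_le
    · intro y hy
      rw [mem_image] at hy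
      obtain ⟨i, hi, rfl⟩ := hy
      simp only [hi, if_true]
      exact ht1 i hi
    · rw [card_image_of_injOn, hcard]
      intro i hi j hj hij
      have hi' := mem_coe.1 hi
      have hj' := mem_coe.1 hj
      simp only [hi', hj', if_true] at hij
      by_contra hne
      have h7 := ht2 j hj'
      rw [← hij] at h7
      exact disjoint_left.1 (hdis i j hne) (ht2 i hi') h7
  · intro i hi j hj hne
    simp only [hi, hj, if_true]
    apply hT (mem_coe.2 (ht1 i hi)) (mem_coe.2 (ht1 j hj))
    intro h
    have h7 := ht2 j hj
    rw [← h] at h7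
    exact disjoint_left.1 (hdis i j hne) (ht2 i hi) h7

end

lemma nb_clq_small {W : Finset V} {p a : ℕ} (hCB : CB G W (p + 1))
    (h : W.card ≤ (p + 1) * a) : kc G W p ≤ (p + 1) * a ^ p := by
  have h1 := zyk_real' p W hCB
  have h2 : (W.card / (p + 1) : ℝ) ≤ a := by
    rw [div_le_iff₀ (by positivity)]
    have : (W.card : ℝ) ≤ (((p + 1) * a : ℕ) : ℝ) := by exact_mod_cast h
    push_cast at this
    linarith
  have h3 : (kc G W p : ℝ) ≤ (p + 1) * a ^ p :=
    h1.trans (mul_le_mul_of_nonneg_left (pow_le_pow_left₀ (by positivity) h2 p) (by positivity))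
  exact_mod_cast h3

open Classical in
lemma claimT {ι : Type*} [Fintype ι] [DecidableEq ι] (P : ι → Finset V) {W : Finset V} {v : V}
    {p a : ℕ} (hι : Fintype.card ι = p + 3) (hPa : ∀ i, (P i).card = a)
    (hdis : ∀ i j, i ≠ j → Disjoint (P i) (P j))
    (hind : ∀ i, ∀ u ∈ P i, ∀ w ∈ P i, ¬ G.Adj u w)
    (hW : ∀ u, u ∈ W ↔ u = v ∨ ∃ i, u ∈ P i) (hv : ∀ i, v ∉ P i) (hCB : CB G W (p + 3))
    (hdeg : ∀ y ∈ W, (nb G W y).card ≤ (p + 2) * a) (ha : p + 3 ≤ a)
    (hA : ∀ i, ∃ u ∈ P i, G.Adj v u) : kc G W (p + 3) ≤ a ^ (p + 3) := by
  have hvW : v ∈ W := (hW v).2 (Or.inl rfl)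
  have hPW : ∀ i, P i ⊆ W := fun i u hu => (hW u).2 (Or.inr ⟨i, hu⟩)
  choose g hg1 hg2 using hA
  set A : ι → Finset V := fun i => nb G (P i) v with hAdef
  have hAP : ∀ i, A i ⊆ P i := fun i => nb_subset G _ _
  have hmA : ∀ i u, u ∈ A i ↔ u ∈ P i ∧ G.Adj v u := fun i u => mem_nb G
  have hgA : ∀ i, g i ∈ A i := fun i => (hmA i _).2 ⟨hg1 i, hg2 i⟩
  have hAdis : ∀ i j, i ≠ j → Disjoint (A i) (A j) := fun i j h =>
    (hdis i j h).mono (hAP i) (hAP j)
  have hAind : ∀ i, ∀ u ∈ A i, ∀ w ∈ A i, ¬ G.Adj u w := fun i u hu w hw =>
    hind i u (hAP i hu) w (hAP i hw)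
  have hnb : ∀ u, u ∈ nb G W v ↔ ∃ i, u ∈ A i := by
    intro u
    rw [mem_nb, hW]
    constructor
    · rintro ⟨rfl | ⟨i, hi⟩, h2⟩
      · exact absurd h2 (G.loopless.irrefl _)
      · exact ⟨i, (hmA i u).2 ⟨hi, h2⟩⟩
    · rintro ⟨i, hi⟩
      rw [hmA] at hi
      exact ⟨Or.inr ⟨i, hi.1⟩, hi.2⟩
  -- total number of transversals
  set TP := Fintype.piFinset P with hTP
  have hTPc : TP.card = a ^ (p + 3) := by
    rw [hTP, Fintype.card_piFinset, prod_congr rfl (fun i _ => hPa i), prod_const, card_univ, hι]
  have hTA : Fintype.piFinset A ⊆ TP := by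
    intro f hf
    rw [Fintype.mem_piFinset] at hf ⊢
    exact fun i => hAP i (hf i)
  -- no clique transversal in `A`
  have H1 : ∀ f ∈ Fintype.piFinset A, ¬ clf G univ f := by
    intro f hf hcl
    rw [Fintype.mem_piFinset] at hf
    have hinj : Function.Injective f := by
      intro i j hij
      by_contra hne
      exact disjoint_left.1 (hAdis i j hne) (hf i) (hij ▸ hf j)
    have hvn : v ∉ univ.image f := by
      rw [mem_image]
      rintro ⟨i, _, h⟩
      exact hv i (h ▸ hAP i (hf i))
    have h1 := hCB (insert v (univ.image f)) (by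
      intro y hy
      rw [mem_insert, mem_image] at hy
      rcases hy with rfl | ⟨i, _, rfl⟩
      · exact hvW
      · exact hPW i (hAP i (hf i))) (by
      rw [coe_insert, SimpleGraph.isClique_insert]
      refine ⟨?_, ?_⟩
      · intro y hy z hz hne
        rw [mem_coe, mem_image] at hy hz
        obtain ⟨i, _, rfl⟩ := hy
        obtain ⟨j, _, rfl⟩ := hz
        exact hcl i (mem_univ _) j (mem_univ _) (fun h => hne (by rw [h]))
      · intro y hy _
        rw [mem_coe, mem_image] at hy
        obtain ⟨i, _, rfl⟩ := hy
        exact ((hmA i _).1 (hf i)).2)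
    rw [card_insert_of_notMem hvn, card_image_of_injective _ hinj, card_univ, hι] at h1
    omega
  -- cliques avoiding `v`
  have t1 : kc G (W.erase v) (p + 3) ≤ (TP.filter (fun f => clf G univ f)).card := by
    rw [kc_eq]
    refine (card_le_card (t := (TP.filter (fun f => clf G univ f)).image
      (fun f => (univ : Finset ι).image f)) ?_).trans card_image_le
    intro T hT
    rw [mem_clq] at hT
    obtain ⟨f, hf1, _, hf2, hf3⟩ := surj (G := G) hdis hind g hg1 (J := univ) hT.2.2
      (by rw [hT.2.1, card_univ, hι]) (by
        intro t ht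
        have h1 := hT.1 ht
        rw [mem_erase, hW] at h1
        rcases h1 with ⟨h1, h2 | ⟨i, hi⟩⟩
        · exact absurd h2 h1
        · exact ⟨i, mem_univ _, hi⟩)
    rw [mem_image]
    exact ⟨f, mem_filter.2 ⟨hf1, hf3⟩, hf2⟩
  have hsplit := card_filter_add_card_filter_not (s := TP) (fun f => clf G univ f)
  have hk : kc G W (p + 3) = kc G (W.erase v) (p + 3) + kc G (nb G W v) (p + 2) :=
    kc_succ G hvW (p + 2)
  suffices h : kc G (nb G W v) (p + 2) ≤ (TP.filter (fun f => ¬ clf G univ f)).card by
    rw [← hTPc, hk]
    omega
  by_cases hall : ∀ i, 2 ≤ (A i).card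
  · -- all `A i` have at least two elements
    set ρ : ι → Finset (ι → V) := fun i => (Fintype.piFinset A).filter
      (fun f => f i = g i ∧ clf G (univ.erase i) f) with hρ
    have t2 : kc G (nb G W v) (p + 2) ≤ ∑ i, (ρ i).card := by
      rw [kc_eq]
      have h1 : clq G (nb G W v) (p + 2) ⊆ univ.biUnion
          (fun i => (ρ i).image (fun f => (univ.erase i).image f)) := by
        intro T hT
        rw [mem_clq] at hT
        have hcov : ∀ t ∈ T, ∃ i, t ∈ A i := fun t ht => (hnb t).1 (hT.1 ht)
        obtain ⟨i, hi⟩ : ∃ i, ∀ t ∈ T, t ∉ A i := by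
          by_contra hcon
          push Not at hcon
          choose t ht1 ht2 using hcon
          have hinj : Function.Injective t := by
            intro i j hij
            by_contra hne
            exact disjoint_left.1 (hAdis i j hne) (ht2 i) (hij ▸ ht2 j)
          have h2 : univ.image t ⊆ T := by
            intro y hy
            rw [mem_image] at hy
            obtain ⟨i, _, rfl⟩ := hy
            exact ht1 i
          have h3 := card_le_card h2
          rw [card_image_of_injective _ hinj, card_univ, hι, hT.2.1] at h3
          omega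
        obtain ⟨f, hf1, hf2, hf3, hf4⟩ := surj (G := G) hAdis hAind g hgA (J := univ.erase i)
          hT.2.2 (by rw [hT.2.1, card_erase_of_mem (mem_univ _), card_univ, hι]; rfl) (by
            intro t ht
            obtain ⟨j, hj⟩ := hcov t ht
            refine ⟨j, mem_erase.2 ⟨?_, mem_univ _⟩, hj⟩
            rintro rfl
            exact hi t ht hj)
        rw [mem_biUnion]
        refine ⟨i, mem_univ _, ?_⟩
        rw [mem_image]
        exact ⟨f, mem_filter.2 ⟨hf1, hf2 i (notMem_erase _ _), hf4⟩, hf3⟩
      exact (card_le_card h1).trans (card_biUnion_le.trans (sum_le_sum (fun i _ => card_image_le)))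
    have t3 : ∀ i, (A i).card * (ρ i).card
        ≤ ((Fintype.piFinset A).filter (fun f => clf G (univ.erase i) f)).card := by
      intro i
      rw [← card_product]
      apply card_le_card_of_injOn (fun x => Function.update x.2 i x.1)
      · rintro ⟨u, f⟩ hx
        rw [mem_coe, mem_product] at hx
        obtain ⟨hu, hf⟩ := hx
        dsimp only at hu hf ⊢
        rw [hρ, mem_filter, Fintype.mem_piFinset] at hf
        rw [mem_coe, mem_filter, Fintype.mem_piFinset]
        refine ⟨?_, ?_⟩
        · intro j
          by_cases hj : j = i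
          · subst hj; rw [Function.update_self]; exact hu
          · rw [Function.update_of_ne hj]; exact hf.1 j
        · intro j hj k hk' hne
          rw [Function.update_of_ne (ne_of_mem_erase hj), Function.update_of_ne (ne_of_mem_erase hk')]
          exact hf.2.2 j hj k hk' hne
      · rintro ⟨u, f⟩ hx ⟨u', f'⟩ hx' heq
        rw [mem_coe, mem_product] at hx hx'
        obtain ⟨_, hf⟩ := hx
        obtain ⟨_, hf'⟩ := hx'
        dsimp only at hf hf' heq
        rw [hρ, mem_filter] at hf hf'
        have h1 : u = u' := by
          have := congrFun heq i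
          rwa [Function.update_self, Function.update_self] at this
        have h2 : f = f' := by
          funext j
          by_cases hj : j = i
          · subst hj; rw [hf.2.1, hf'.2.1]
          · have := congrFun heq j
            rwa [Function.update_of_ne hj, Function.update_of_ne hj] at this
        rw [h1, h2]
    have t5 : ∑ i, ((Fintype.piFinset A).filter (fun f => clf G (univ.erase i) f)).card
        ≤ 2 * (Fintype.piFinset A).card := by
      simp_rw [card_filter]
      rw [sum_comm, mul_comm, ← smul_eq_mul]
      apply sum_le_card_nsmul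
      intro f hf
      rw [← card_filter]
      have hn := H1 f hf
      unfold clf at hn
      push Not at hn
      obtain ⟨j, _, k, _, hne, hadj⟩ := hn
      have : univ.filter (fun i => clf G (univ.erase i) f) ⊆ {j, k} := by
        intro i hi
        rw [mem_filter] at hi
        rw [mem_insert, mem_singleton]
        by_contra hcon
        push Not at hcon
        exact hadj (hi.2 j (mem_erase.2 ⟨fun h => hcon.1 h.symm, mem_univ _⟩) k
          (mem_erase.2 ⟨fun h => hcon.2 h.symm, mem_univ _⟩) hne)
      exact (card_le_card this).trans card_le_two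
    have t6 : 2 * ∑ i, (ρ i).card ≤ 2 * (Fintype.piFinset A).card := by
      rw [mul_sum]
      refine le_trans (sum_le_sum (fun i _ => ?_)) t5
      exact (Nat.mul_le_mul_right _ (hall i)).trans (t3 i)
    have t7 : (Fintype.piFinset A).card ≤ (TP.filter (fun f => ¬ clf G univ f)).card := by
      apply card_le_card
      intro f hf
      exact mem_filter.2 ⟨hTA hf, H1 f hf⟩
    omega
  · push Not at hall
    obtain ⟨i1, hi1⟩ := hall
    have hA1 : A i1 = {g i1} := by
      have h1 : 0 < (A i1).card := card_pos.2 ⟨_, hgA i1⟩
      obtain ⟨u, hu⟩ := card_eq_one.1 (show (A i1).card = 1 by omega)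
      have := hgA i1
      rw [hu, mem_singleton] at this
      rw [hu, this]
    set u1 := g i1 with hu1
    have hu1W : u1 ∈ nb G W v := (hnb u1).2 ⟨i1, hgA i1⟩
    have hk2 := kc_succ G hu1W (p + 1)
    -- cliques avoiding `u1`
    have b1 : kc G ((nb G W v).erase u1) (p + 2)
        ≤ (TP.filter (fun f => ¬ clf G univ f ∧ f i1 = u1)).card := by
      rw [kc_eq]
      refine (card_le_card (t := (TP.filter (fun f => ¬ clf G univ f ∧ f i1 = u1)).image
        (fun f => (univ.erase i1).image f)) ?_).trans card_image_le
      intro T hT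
      rw [mem_clq] at hT
      obtain ⟨f, hf1, hf2, hf3, hf4⟩ := surj (G := G) hAdis hAind g hgA (J := univ.erase i1)
          hT.2.2 (by rw [hT.2.1, card_erase_of_mem (mem_univ _), card_univ, hι]; rfl) (by
            intro t ht
            have h1 := hT.1 ht
            rw [mem_erase] at h1
            obtain ⟨j, hj⟩ := (hnb t).1 h1.2
            refine ⟨j, mem_erase.2 ⟨?_, mem_univ _⟩, hj⟩
            rintro rfl
            rw [hA1, mem_singleton] at hj
            exact h1.1 hj)
      rw [mem_image]
      refine ⟨f, mem_filter.2 ⟨hTA hf1, H1 f hf1, ?_⟩, hf3⟩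
      have := (Fintype.mem_piFinset.1 hf1) i1
      rwa [hA1, mem_singleton] at this
    -- cliques through `u1`
    set Γ := nb G (nb G W v) u1 with hΓ
    have hmΓ : ∀ u, u ∈ Γ ↔ u ∈ nb G W v ∧ G.Adj u1 u := fun u => mem_nb G
    have hΓi : ∀ u ∈ Γ, ∃ l, l ≠ i1 ∧ u ∈ P l := by
      intro u hu
      rw [hmΓ] at hu
      obtain ⟨l, hl⟩ := (hnb u).1 hu.1
      refine ⟨l, ?_, hAP l hl⟩
      rintro rfl
      rw [hA1, mem_singleton] at hl
      rw [hl] at hu
      exact G.loopless.irrefl _ hu.2
    have hCBΓ : CB G Γ (p + 1) := by
      have h1 : CB G (nb G W v) (p + 2) := hCB.nb hvW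
      exact h1.nb hu1W
    have b2 : kc G Γ (p + 1) ≤ Γ.card * a ^ p := by
      have h1 := kc_sum G Γ p
      have h2 : ∀ u ∈ Γ, kc G (nb G Γ u) p ≤ (p + 1) * a ^ p := by
        intro u hu
        apply nb_clq_small
        · exact (hCBΓ.mono (nb_subset G _ _))
        · obtain ⟨l, hl, hul⟩ := hΓi u hu
          have hsub : nb G Γ u ⊆ ((W.erase v) \ P i1) \ P l := by
            intro w hw
            rw [mem_nb] at hw
            have hw1 := (hmΓ w).1 hw.1
            have hw2 := (mem_nb G).1 hw1.1
            rw [mem_sdiff, mem_sdiff, mem_erase]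
            refine ⟨⟨⟨?_, hw2.1⟩, ?_⟩, ?_⟩
            · rintro rfl
              exact G.loopless.irrefl _ hw2.2
            · intro h
              exact hind i1 u1 (hg1 i1) w h hw1.2
            · intro h
              exact hind l u hul w h hw.2
          have hWc : (W.erase v).card = (p + 3) * a := by
            have : W.erase v = univ.biUnion P := by
              ext u
              rw [mem_erase, hW, mem_biUnion]
              constructor
              · rintro ⟨h1, h2 | ⟨i, hi⟩⟩
                · exact absurd h2 h1
                · exact ⟨i, mem_univ _, hi⟩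
              · rintro ⟨i, _, hi⟩
                exact ⟨fun h => hv i (h ▸ hi), Or.inr ⟨i, hi⟩⟩
            rw [this, card_biUnion (fun i _ j _ hne => hdis i j hne),
              sum_congr rfl (fun i _ => hPa i), sum_const, card_univ, hι, smul_eq_mul]
          have hs1 : P i1 ⊆ W.erase v := fun x hx =>
            mem_erase.2 ⟨fun h => hv i1 (h ▸ hx), hPW i1 hx⟩
          have hs2 : P l ⊆ (W.erase v) \ P i1 := by
            intro x hx
            rw [mem_sdiff, mem_erase]
            exact ⟨⟨fun h => hv l (h ▸ hx), hPW l hx⟩,
              fun h => disjoint_left.1 (hdis l i1 hl) hx h⟩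
          have hc1 := card_sdiff_add_card_eq_card hs1
          have hc2 := card_sdiff_add_card_eq_card hs2
          rw [hPa] at hc1 hc2
          have hc3 := card_le_card hsub
          have hc4 : (p + 3) * a = (p + 1) * a + a + a := by ring
          omega
      have h3 : ∑ u ∈ Γ, kc G (nb G Γ u) p ≤ Γ.card * ((p + 1) * a ^ p) := by
        rw [← smul_eq_mul]
        exact sum_le_card_nsmul _ _ _ h2
      rw [h1] at h3
      have h4 : (p + 1) * kc G Γ (p + 1) ≤ (p + 1) * (Γ.card * a ^ p) := by
        calc (p + 1) * kc G Γ (p + 1) ≤ Γ.card * ((p + 1) * a ^ p) := h3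
          _ = (p + 1) * (Γ.card * a ^ p) := by ring
      exact Nat.le_of_mul_le_mul_left h4 (by omega)
    -- new killed transversals
    set NK := TP.filter (fun f => ¬ clf G univ f ∧ f i1 ≠ u1) with hNK
    have b3 : ∀ l, l ≠ i1 → ((a - 1) * a ^ p) * (Γ ∩ P l).card ≤ NK.card := by
      intro l hl
      have hfib : ∀ u ∈ Γ ∩ P l, (a - 1) * a ^ p ≤ (NK.filter (fun f => f l = u)).card := by
        intro u hu
        rw [mem_inter] at hu
        have hu1' := (hmΓ u).1 hu.1
        have huv := (mem_nb G).1 hu1'.1
        -- a non-neighbour of `u`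
        obtain ⟨l', u', hl', hu'P, hnadj⟩ : ∃ l' u', l' ≠ l ∧ u' ∈ P l' ∧ ¬ G.Adj u u' := by
          by_contra hcon
          push Not at hcon
          have h1 : insert v ((W.erase v) \ P l) ⊆ nb G W u := by
            intro w hw
            rw [mem_insert, mem_sdiff, mem_erase, hW] at hw
            rw [mem_nb]
            rcases hw with rfl | ⟨⟨hw1, hw2 | ⟨i, hi⟩⟩, hw3⟩
            · exact ⟨hvW, huv.2.symm⟩
            · exact absurd hw2 hw1
            · refine ⟨hPW i hi, hcon i w ?_ hi⟩
              rintro rfl
              exact hw3 hi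
          have h2 := card_le_card h1
          have h3 := hdeg u huv.1
          have h4 : v ∉ (W.erase v) \ P l := by
            rw [mem_sdiff, mem_erase]
            rintro ⟨⟨h, _⟩, _⟩
            exact h rfl
          have hWc : (W.erase v).card = (p + 3) * a := by
            have : W.erase v = univ.biUnion P := by
              ext u
              rw [mem_erase, hW, mem_biUnion]
              constructor
              · rintro ⟨h1, h2 | ⟨i, hi⟩⟩
                · exact absurd h2 h1
                · exact ⟨i, mem_univ _, hi⟩
              · rintro ⟨i, _, hi⟩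
                exact ⟨fun h => hv i (h ▸ hi), Or.inr ⟨i, hi⟩⟩
            rw [this, card_biUnion (fun i _ j _ hne => hdis i j hne),
              sum_congr rfl (fun i _ => hPa i), sum_const, card_univ, hι, smul_eq_mul]
          have hs1 : P l ⊆ W.erase v := fun x hx =>
            mem_erase.2 ⟨fun h => hv l (h ▸ hx), hPW l hx⟩
          have hc1 := card_sdiff_add_card_eq_card hs1
          rw [hPa] at hc1
          rw [card_insert_of_notMem h4] at h2
          have hc4 : (p + 3) * a = (p + 2) * a + a := by ring
          omega
        have hu'u1 : u' ≠ u1 := by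
          rintro rfl
          exact hnadj hu1'.2.symm
        -- the family of sets
        set P' : ι → Finset V := fun i => if i = l then {u} else if i = l' then {u'} else
          if i = i1 then (P i1).erase u1 else P i with hP'
        have hsub : Fintype.piFinset P' ⊆ NK.filter (fun f => f l = u) := by
          intro f hf
          rw [Fintype.mem_piFinset] at hf
          have hfl : f l = u := by
            have := hf l
            simp only [hP', if_true] at this
            rwa [mem_singleton] at this
          have hfl' : f l' = u' := by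
            have := hf l'
            simp only [hP', hl', if_false, if_true] at this
            rwa [mem_singleton] at this
          rw [mem_filter, hNK, mem_filter, hTP, Fintype.mem_piFinset]
          refine ⟨⟨?_, ?_, ?_⟩, hfl⟩
          · intro i
            by_cases h1 : i = l
            · rw [h1, hfl]; exact hu.2
            · by_cases h2 : i = l'
              · rw [h2, hfl']; exact hu'P
              · have := hf i
                simp only [hP', h1, h2, if_false] at this
                by_cases h3 : i = i1
                · simp only [h3, if_true] at this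
                  rw [h3]
                  exact mem_of_mem_erase this
                · simp only [h3, if_false] at this
                  exact this
          · intro hcl
            have := hcl l (mem_univ _) l' (mem_univ _) (Ne.symm hl')
            rw [hfl, hfl'] at this
            exact hnadj this
          · by_cases h2 : i1 = l'
            · rw [h2, hfl']; exact hu'u1
            · have := hf i1
              simp only [hP', h2, Ne.symm hl, if_false, if_true] at this
              exact ne_of_mem_erase this
        refine le_trans ?_ (card_le_card hsub)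
        rw [Fintype.card_piFinset]
        -- lower bound for the product
        have hP'l : (P' l).card = 1 := by simp only [hP', if_true]; exact card_singleton _
        have hP'l' : (P' l').card = 1 := by
          simp only [hP', hl', if_false, if_true]; exact card_singleton _
        rw [← mul_prod_erase univ (fun i => (P' i).card) (mem_univ l), hP'l, one_mul,
          ← mul_prod_erase (univ.erase l) (fun i => (P' i).card)
            (mem_erase.2 ⟨hl', mem_univ l'⟩), hP'l', one_mul]
        have hcard2 : ((univ.erase l).erase l').card = p + 1 := by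
          rw [card_erase_of_mem (mem_erase.2 ⟨hl', mem_univ l'⟩), card_erase_of_mem (mem_univ l),
            card_univ, hι]
          omega
        by_cases h2 : i1 = l'
        · have h3 : ∀ i ∈ (univ.erase l).erase l', (P' i).card = a := by
            intro i hi
            rw [mem_erase, mem_erase] at hi
            simp only [hP', hi.2.1, hi.1, if_false, h2]
            exact hPa i
          rw [prod_congr rfl h3, prod_const, hcard2, pow_succ, mul_comm]
          exact Nat.mul_le_mul_left _ (Nat.sub_le _ _)
        · have hmem : i1 ∈ (univ.erase l).erase l' :=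
            mem_erase.2 ⟨h2, mem_erase.2 ⟨Ne.symm hl, mem_univ _⟩⟩
          rw [← mul_prod_erase _ (fun i => (P' i).card) hmem]
          have h4 : (P' i1).card = a - 1 := by
            simp only [hP', h2, Ne.symm hl, if_false, if_true]
            rw [card_erase_of_mem (hg1 i1), hPa]
          have h3 : ∀ i ∈ ((univ.erase l).erase l').erase i1, (P' i).card = a := by
            intro i hi
            rw [mem_erase, mem_erase, mem_erase] at hi
            simp only [hP', hi.2.2.1, hi.2.1, hi.1, if_false]
            exact hPa i
          rw [h4, prod_congr rfl h3, prod_const, card_erase_of_mem hmem, hcard2]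
          exact le_rfl
      calc ((a - 1) * a ^ p) * (Γ ∩ P l).card = ∑ u ∈ Γ ∩ P l, (a - 1) * a ^ p := by
            rw [sum_const, smul_eq_mul, mul_comm]
        _ ≤ ∑ u ∈ Γ ∩ P l, (NK.filter (fun f => f l = u)).card := sum_le_sum hfib
        _ = ((Γ ∩ P l).biUnion (fun u => NK.filter (fun f => f l = u))).card := by
            rw [card_biUnion]
            intro u _ w _ hne
            show Disjoint _ _
            rw [disjoint_left]
            intro f hf hf'
            rw [mem_filter] at hf hf'
            exact hne (hf.2.symm.trans hf'.2)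
        _ ≤ NK.card := by
            apply card_le_card
            rw [biUnion_subset]
            intro u _
            exact filter_subset _ _
    have b4 : Γ.card * a ^ p ≤ NK.card := by
      have h1 : Γ = (univ.erase i1).biUnion (fun l => Γ ∩ P l) := by
        ext u
        rw [mem_biUnion]
        constructor
        · intro hu
          obtain ⟨l, hl, hul⟩ := hΓi u hu
          exact ⟨l, mem_erase.2 ⟨hl, mem_univ _⟩, mem_inter.2 ⟨hu, hul⟩⟩
        · rintro ⟨l, _, hul⟩
          exact (mem_inter.1 hul).1
      have h2 : Γ.card ≤ ∑ l ∈ univ.erase i1, (Γ ∩ P l).card := by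
        conv_lhs => rw [h1]
        exact card_biUnion_le
      have h3 : ((a - 1) * a ^ p) * ∑ l ∈ univ.erase i1, (Γ ∩ P l).card ≤ (p + 2) * NK.card := by
        rw [mul_sum]
        have : (univ.erase i1).card = p + 2 := by
          rw [card_erase_of_mem (mem_univ _), card_univ, hι]; rfl
        rw [← this, ← smul_eq_mul]
        exact sum_le_card_nsmul _ _ _ (fun l hl => b3 l (ne_of_mem_erase hl))
      have h4 : (p + 2) * (Γ.card * a ^ p) ≤ (p + 2) * NK.card := by
        calc (p + 2) * (Γ.card * a ^ p) ≤ (a - 1) * (Γ.card * a ^ p) :=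
              Nat.mul_le_mul_right _ (by omega)
          _ = ((a - 1) * a ^ p) * Γ.card := by ring
          _ ≤ ((a - 1) * a ^ p) * ∑ l ∈ univ.erase i1, (Γ ∩ P l).card :=
              Nat.mul_le_mul_left _ h2
          _ ≤ (p + 2) * NK.card := h3
      exact Nat.le_of_mul_le_mul_left h4 (by omega)
    have b5 : (TP.filter (fun f => ¬ clf G univ f ∧ f i1 = u1)).card + NK.card
        = (TP.filter (fun f => ¬ clf G univ f)).card := by
      rw [hNK, ← filter_filter, ← filter_filter]
      exact card_filter_add_card_filter_not (s := TP.filter (fun f => ¬ clf G univ f))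
        (fun f => f i1 = u1)
    have hk3 : kc G (nb G W v) (p + 2) = kc G ((nb G W v).erase u1) (p + 2) + kc G Γ (p + 1) := hk2
    omega

end Pool.Agent.H46.KW
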