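import Pool.Agent.H46.KW.Claim

/-!
# The neighbourhoods with one more vertex than a balanced complete multipartite graph
-/

open Finset

namespace Pool.Agent.H46.KW

open Pool.Agent.H23.KT

variable {V : Type*} [DecidableEq V] {G : SimpleGraph V}

lemma kc_nb_le {W : Finset V} {p a : ℕ} (hCB : CB G W (p + 3)) {y : V} (hy : y ∈ W)
    (hdeg : (nb G W y).card ≤ (p + 2) * a) : kc G (nb G W y) (p + 2) ≤ a ^ (p + 2) := by
  have h1 : CB G (nb G W y) (p + 2) := hCB.nb hy
  have h2 := zyk (p + 1) _ h1
  have h3 := bal_mono (q := p + 2) (by omega) hdeg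
  rw [bal_mul_self (by omega)] at h3
  exact h2.trans h3

/-- **The claim.** -/
lemma claim {W : Finset V} {p a : ℕ} (hCB : CB G W (p + 3)) (hWc : W.card = (p + 3) * a + 1)
    (hdeg : ∀ y ∈ W, (nb G W y).card ≤ (p + 2) * a) (ha : p + 3 ≤ a) :
    kc G W (p + 3) ≤ a ^ (p + 3) := by
  classical
  by_contra hcon
  push Not at hcon
  set k := kc G W (p + 3) with hk
  -- step 1
  have s1 : kc G W (p + 2) ≤ ((p + 3) * a + 1) * a ^ (p + 1) := by
    have h1 : (p + 2) * kc G W (p + 2) = ∑ y ∈ W, kc G (nb G W y) (p + 1) :=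
      (kc_sum G W (p + 1)).symm
    have h2 : ∑ y ∈ W, kc G (nb G W y) (p + 1) ≤ W.card * ((p + 2) * a ^ (p + 1)) := by
      rw [← smul_eq_mul]
      apply sum_le_card_nsmul
      intro y hy
      have h3 : CB G (nb G W y) (p + 1 + 1) := hCB.nb hy
      exact nb_clq_small h3 (hdeg y hy)
    rw [hWc] at h2
    have h4 : (p + 2) * kc G W (p + 2) ≤ (p + 2) * (((p + 3) * a + 1) * a ^ (p + 1)) := by
      rw [h1]
      calc _ ≤ _ := h2
        _ = _ := by ring
    exact Nat.le_of_mul_le_mul_left h4 (by omega)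
  -- step 2
  obtain ⟨L, hL, hsum⟩ : ∃ L ∈ clq G W (p + 3), (p + 3) * a ≤ ∑ z ∈ L, nz G W L z := by
    by_contra hc
    push Not at hc
    have h1 : ((p + 3) * k) ^ 2 ≤ kc G W (p + 2) * ∑ L ∈ clq G W (p + 3), ∑ z ∈ L, nz G W L z :=
      facets_cs W (p + 2)
    have h2 : ∑ L ∈ clq G W (p + 3), ∑ z ∈ L, nz G W L z ≤ k * ((p + 3) * a - 1) := by
      rw [hk, kc_eq, ← smul_eq_mul]
      apply sum_le_card_nsmul
      intro L hL
      have := hc L hL
      omega
    have h3 : ((p + 3) * k) ^ 2 ≤ (((p + 3) * a + 1) * a ^ (p + 1)) * (k * ((p + 3) * a - 1)) :=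
      h1.trans (Nat.mul_le_mul s1 h2)
    have hkpos : 0 < k := lt_of_le_of_lt (Nat.zero_le _) hcon
    have h4 : k * ((p + 3) ^ 2 * k) ≤ k * ((((p + 3) * a + 1) * ((p + 3) * a - 1)) * a ^ (p + 1)) := by
      calc k * ((p + 3) ^ 2 * k) = ((p + 3) * k) ^ 2 := by ring
        _ ≤ _ := h3
        _ = _ := by ring
    have h5 := Nat.le_of_mul_le_mul_left h4 hkpos
    have h6 : ((p + 3) * a + 1) * ((p + 3) * a - 1) ≤ ((p + 3) * a) ^ 2 := by
      obtain ⟨c, hc'⟩ : ∃ c, (p + 3) * a = c + 1 := by
        refine ⟨(p + 3) * a - 1, ?_⟩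
        have : 1 ≤ (p + 3) * a := Nat.one_le_iff_ne_zero.2 (Nat.mul_ne_zero (by omega) (by omega))
        omega
      rw [hc', Nat.add_sub_cancel]
      nlinarith
    have h7 : (p + 3) ^ 2 * k ≤ (p + 3) ^ 2 * a ^ (p + 3) := by
      calc (p + 3) ^ 2 * k ≤ ((p + 3) * a) ^ 2 * a ^ (p + 1) := h5.trans (Nat.mul_le_mul_right _ h6)
        _ = (p + 3) ^ 2 * a ^ (p + 3) := by ring
    have h8 := Nat.le_of_mul_le_mul_left h7 (by positivity)
    omega
  -- step 3
  have hLc := ((mem_clq G).1 hL).2.1
  have hL' := hL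
  rw [mem_clq] at hL'
  have hd1 : ∀ z ∈ L, ∑ z' ∈ L.erase z, nz G W L z' ≤ (p + 2) * a := by
    intro z hz
    rw [← card_parts hCB hL]
    refine (card_le_card ?_).trans (hdeg z (hL'.1 hz))
    rw [biUnion_subset]
    intro z' hz' u hu
    rw [mem_cn] at hu
    rw [mem_nb]
    refine ⟨hu.1, hu.2 z (mem_erase.2 ⟨?_, hz⟩)⟩
    exact fun h => (mem_erase.1 hz').1 h.symm
  set S := ∑ z ∈ L, nz G W L z with hS
  have hd2 : ∀ z ∈ L, S ≤ nz G W L z + (p + 2) * a := by
    intro z hz
    have := add_sum_erase L (fun z => nz G W L z) hz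
    have := hd1 z hz
    omega
  have hSle : S ≤ (p + 3) * a + 1 := by
    rw [hS, ← hWc]; exact sum_nz_le hCB hL
  have hge : ∀ z ∈ L, a ≤ nz G W L z := by
    intro z hz
    have h1 := hd2 z hz
    have h2 : (p + 3) * a = (p + 2) * a + a := by ring
    omega
  have hSeq : S = (p + 3) * a := by
    by_contra hne
    have hS1 : S = (p + 3) * a + 1 := by omega
    have h1 : ∀ z ∈ L, a + 1 ≤ nz G W L z := by
      intro z hz
      have h1 := hd2 z hz
      have h2 : (p + 3) * a = (p + 2) * a + a := by ring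
      omega
    have h2 : L.card * (a + 1) ≤ S := by
      rw [hS, ← smul_eq_mul]
      exact card_nsmul_le_sum _ _ _ h1
    rw [hLc, hS1] at h2
    have h3 : (p + 3) * (a + 1) = (p + 3) * a + (p + 3) := by ring
    change (p + 3) * (a + 1) ≤ _ at h2
    omega
  have hnz : ∀ z ∈ L, nz G W L z = a := by
    intro z hz
    by_contra hne
    have h1 : ∑ z ∈ L, a < ∑ z ∈ L, nz G W L z :=
      sum_lt_sum hge ⟨z, hz, lt_of_le_of_ne (hge z hz) (Ne.symm hne)⟩
    rw [sum_const, smul_eq_mul, hLc, ← hS, hSeq] at h1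
    exact lt_irrefl _ h1
  -- step 4
  have hUc : (L.biUnion (fun z => cn G W (L.erase z))).card = (p + 3) * a := by
    rw [card_parts hCB hL, ← hS, hSeq]
  have hUW : L.biUnion (fun z => cn G W (L.erase z)) ⊆ W := by
    rw [biUnion_subset]; intro z _; exact cn_subset _ _
  obtain ⟨v, hv⟩ : ∃ v, W \ L.biUnion (fun z => cn G W (L.erase z)) = {v} := by
    rw [← card_eq_one]
    have := card_sdiff_add_card_eq_card hUW
    omega
  have hvW : v ∈ W ∧ v ∉ L.biUnion (fun z => cn G W (L.erase z)) := by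
    rw [← mem_sdiff, hv, mem_singleton]
  have hmem : ∀ u, u ∈ W ↔ u = v ∨ ∃ z ∈ L, u ∈ cn G W (L.erase z) := by
    intro u
    constructor
    · intro hu
      by_cases h : u ∈ L.biUnion (fun z => cn G W (L.erase z))
      · rw [mem_biUnion] at h
        exact Or.inr h
      · left
        rw [← mem_singleton, ← hv, mem_sdiff]
        exact ⟨hu, h⟩
    · rintro (rfl | ⟨z, _, hu⟩)
      · exact hvW.1
      · exact cn_subset _ _ hu
  have hvn : ∀ z ∈ L, v ∉ cn G W (L.erase z) := by
    intro z hz h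
    exact hvW.2 (mem_biUnion.2 ⟨z, hz, h⟩)
  by_cases hA : ∀ z ∈ L, ∃ u ∈ cn G W (L.erase z), G.Adj v u
  · -- step 6
    have := claimT (G := G) (ι := {z // z ∈ L}) (fun z => cn G W (L.erase z.1)) (W := W) (v := v)
      (p := p) (a := a) (by rw [Fintype.card_coe, hLc]) (fun i => hnz i.1 i.2)
      (fun i j hij => parts_disj hCB hL (fun h => hij (Subtype.ext h)))
      (fun i u hu w hw => parts_ind hCB hL i.2 hu hw)
      (by
        intro u
        rw [hmem]
        constructor
        · rintro (h | ⟨z, hz, h⟩)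
          · exact Or.inl h
          · exact Or.inr ⟨⟨z, hz⟩, h⟩
        · rintro (h | ⟨z, h⟩)
          · exact Or.inl h
          · exact Or.inr ⟨z.1, z.2, h⟩)
      (fun i => hvn i.1 i.2) hCB hdeg ha (fun i => hA i.1 i.2)
    omega
  · -- step 5
    push Not at hA
    obtain ⟨z, hz, hzv⟩ := hA
    obtain ⟨z', hz', hne⟩ : ∃ z' ∈ L, z' ≠ z := by
      have h1 : 1 < L.card := by rw [hLc]; omega
      exact exists_mem_ne h1 z
    have hCB' : CB G (W \ cn G W (L.erase z')) (p + 2) := by
      have h1 := CB_of_cover (G := G) (X := W \ cn G W (L.erase z')) (M := L.erase z')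
        (P := fun y => if y = z then insert v (cn G W (L.erase z)) else cn G W (L.erase y)) (by
          intro x hx
          rw [mem_sdiff] at hx
          rcases (hmem x).1 hx.1 with h | ⟨y, hy, hxy⟩
          · refine ⟨z, mem_erase.2 ⟨hne.symm, hz⟩, ?_⟩
            simp only [if_true]
            rw [h]
            exact mem_insert_self _ _
          · refine ⟨y, mem_erase.2 ⟨?_, hy⟩, ?_⟩
            · rintro rfl
              exact hx.2 hxy
            · by_cases hyz : y = z
              · simp only [hyz, if_true]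
                rw [hyz] at hxy
                exact mem_insert_of_mem hxy
              · simp only [hyz, if_false]
                exact hxy) (by
          intro y hy u hu w hw
          by_cases hyz : y = z
          · simp only [hyz, if_true] at hu hw
            rw [mem_insert] at hu hw
            rcases hu with rfl | hu
            · rcases hw with rfl | hw
              · exact G.loopless.irrefl _
              · exact hzv w hw
            · rcases hw with rfl | hw
              · exact fun h => hzv u hu h.symm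
              · exact parts_ind hCB hL hz hu hw
          · simp only [hyz, if_false] at hu hw
            exact parts_ind hCB hL (mem_of_mem_erase hy) hu hw)
      rw [card_erase_of_mem hz', hLc] at h1
      exact h1
    have h2 := kc_le_sum (G := G) W (p + 2) (cn G W (L.erase z')) (cn_subset _ _)
    rw [kc_eq_zero_of_CB hCB' (by omega), add_zero] at h2
    have h3 : ∑ u ∈ cn G W (L.erase z'), kc G (nb G W u) (p + 2) ≤ a * a ^ (p + 2) := by
      have h4 : (cn G W (L.erase z')).card = a := hnz z' hz'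
      conv_rhs => rw [← h4]
      rw [← smul_eq_mul]
      conv_rhs => rw [h4]
      rw [← h4]
      apply sum_le_card_nsmul
      intro u hu
      rw [h4]
      exact kc_nb_le hCB (cn_subset _ _ hu) (hdeg u (cn_subset _ _ hu))
    have h5 : a * a ^ (p + 2) = a ^ (p + 3) := by ring
    have h6 : k ≤ a * a ^ (p + 2) := h2.trans h3
    omega

end Pool.Agent.H46.KW
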