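import Pool.Agent.H46.KW.Zyk

/-!
# Counting cliques with a bonus for the balanced ones
-/

open Finset

namespace Pool.Agent.H46.KW

open Pool.Agent.H23.KT

variable {V : Type*} [DecidableEq V] {G : SimpleGraph V}

open Classical in
/-- The bonus of a clique all of whose parts are small. -/
noncomputable def bon (G : SimpleGraph V) (X : Finset V) (a : ℕ) (L : Finset V) : ℕ :=
  if ∀ z ∈ L, nz G X L z ≤ a then 1 else 0

lemma bon_le (X : Finset V) (a : ℕ) (L : Finset V) : bon G X a L ≤ 1 := by
  unfold bon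
  split_ifs <;> simp

/-- An independent set meeting all cliques. -/
lemma hit {X Q : Finset V} {p a c : ℕ} (hQX : Q ⊆ X) (hind : ∀ u ∈ Q, ∀ v ∈ Q, ¬ G.Adj u v)
    (hQ : a + 1 ≤ Q.card) (hCB : CB G (X \ Q) (p + 1)) (hc : 1 ≤ c) :
    ∑ L ∈ clq G X (p + 1 + 1), (c * a + bon G X a L) ≤ c * a * bal (p + 1 + 1) X.card := by
  classical
  -- each clique has exactly one vertex in `Q`
  have hone : ∀ L ∈ clq G X (p + 1 + 1), ∑ y ∈ L, (if y ∈ Q then (c * a + bon G X a L) else 0)
      = c * a + bon G X a L := by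
    intro L hL
    rw [mem_clq] at hL
    rw [← sum_filter, sum_const, smul_eq_mul]
    have h1 : (L.filter (fun y => y ∈ Q)).card = 1 := by
      apply le_antisymm
      · rw [card_le_one]
        intro u hu v hv
        rw [mem_filter] at hu hv
        by_contra hne
        exact hind u hu.2 v hv.2 (hL.2.2 (mem_coe.2 hu.1) (mem_coe.2 hv.1) hne)
      · rw [Nat.one_le_iff_ne_zero, Ne, card_eq_zero, filter_eq_empty_iff]
        intro h
        have := hCB L (fun y hy => mem_sdiff.2 ⟨hL.1 hy, h hy⟩) hL.2.2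
        omega
    rw [h1, one_mul]
  rw [← sum_congr rfl hone]
  have hf := sum_facets (G := G) X (p + 1)
    (fun R y => if y ∈ Q then (c * a + bon G X a (insert y R)) else 0)
  have hf' : ∑ L ∈ clq G X (p + 1 + 1), ∑ y ∈ L, (if y ∈ Q then (c * a + bon G X a L) else 0)
      = ∑ L ∈ clq G X (p + 1 + 1), ∑ y ∈ L,
        (if y ∈ Q then (c * a + bon G X a (insert y (L.erase y))) else 0) := by
    apply sum_congr rfl
    intro L _
    apply sum_congr rfl
    intro y hy
    rw [insert_erase hy]
  rw [hf', hf]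
  -- bound for each facet
  have hR : ∀ R ∈ clq G X (p + 1),
      ∑ y ∈ cn G X R, (if y ∈ Q then (c * a + bon G X a (insert y R)) else 0)
        ≤ if R ⊆ X \ Q then c * a * Q.card else 0 := by
    intro R hR
    split_ifs with hRQ
    · rw [← sum_filter]
      set F := (cn G X R).filter (fun y => y ∈ Q) with hF
      have hF1 : F.card ≤ Q.card := card_le_card (fun y hy => (mem_filter.1 hy).2)
      have hF2 : F.card ≤ (cn G X R).card := card_le_card (filter_subset _ _)
      rcases Nat.lt_or_ge a (cn G X R).card with h | h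
      · have h1 : ∀ y ∈ F, c * a + bon G X a (insert y R) ≤ c * a := by
          intro y hy
          have hy1 := (mem_cn.1 (mem_filter.1 hy).1)
          have hyR : y ∉ R := fun h' => G.loopless.irrefl y (hy1.2 y h')
          have hb : bon G X a (insert y R) = 0 := by
            unfold bon
            rw [if_neg]
            intro hall
            have h2 := hall y (mem_insert_self _ _)
            unfold nz at h2
            rw [erase_insert hyR] at h2
            omega
          rw [hb, add_zero]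
        calc ∑ y ∈ F, (c * a + bon G X a (insert y R)) ≤ F.card * (c * a) := by
              rw [← smul_eq_mul]; exact sum_le_card_nsmul _ _ _ h1
          _ ≤ Q.card * (c * a) := Nat.mul_le_mul_right _ hF1
          _ = c * a * Q.card := mul_comm _ _
      · have h1 : ∀ y ∈ F, c * a + bon G X a (insert y R) ≤ c * a + 1 := fun y _ =>
          Nat.add_le_add_left (bon_le _ _ _) _
        calc ∑ y ∈ F, (c * a + bon G X a (insert y R)) ≤ F.card * (c * a + 1) := by
              rw [← smul_eq_mul]; exact sum_le_card_nsmul _ _ _ h1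
          _ ≤ a * (c * a + 1) := Nat.mul_le_mul_right _ (hF2.trans h)
          _ ≤ c * a * (a + 1) := by nlinarith
          _ ≤ c * a * Q.card := Nat.mul_le_mul_left _ hQ
    · apply le_of_eq
      apply sum_eq_zero
      intro y hy
      rw [if_neg]
      intro hyQ
      apply hRQ
      intro s hs
      rw [mem_sdiff]
      refine ⟨((mem_clq G).1 hR).1 hs, fun hsQ => ?_⟩
      exact hind s hsQ y hyQ ((mem_cn.1 hy).2 s hs)
  refine (sum_le_sum hR).trans ?_
  rw [← sum_filter, sum_const, smul_eq_mul]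
  have hsub : (clq G X (p + 1)).filter (fun R => R ⊆ X \ Q) = clq G (X \ Q) (p + 1) := by
    ext R
    rw [mem_filter, mem_clq, mem_clq]
    constructor
    · rintro ⟨⟨_, h2, h3⟩, h4⟩; exact ⟨h4, h2, h3⟩
    · rintro ⟨h1, h2, h3⟩; exact ⟨⟨h1.trans sdiff_subset, h2, h3⟩, h1⟩
  rw [hsub, ← kc_eq]
  have h1 := zyk p (X \ Q) hCB
  have h2 := card_sdiff_add_card_eq_card hQX
  calc kc G (X \ Q) (p + 1) * (c * a * Q.card) = c * a * (Q.card * kc G (X \ Q) (p + 1)) := by ring
    _ ≤ c * a * (Q.card * bal (p + 1) (X \ Q).card) :=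
        Nat.mul_le_mul_left _ (Nat.mul_le_mul_left _ h1)
    _ ≤ c * a * bal (p + 1 + 1) ((X \ Q).card + Q.card) :=
        Nat.mul_le_mul_left _ (bal_mul (by omega) _ _)
    _ = c * a * bal (p + 1 + 1) X.card := by rw [h2]

lemma CB_of_cover {X : Finset V} {M : Finset V} {P : V → Finset V}
    (hcov : ∀ x ∈ X, ∃ z ∈ M, x ∈ P z) (hind : ∀ z ∈ M, ∀ u ∈ P z, ∀ v ∈ P z, ¬ G.Adj u v) :
    CB G X M.card := by
  intro S hS hcl
  have h1 : S ⊆ M.biUnion (fun z => S ∩ P z) := by
    intro s hs
    obtain ⟨z, hz, hsz⟩ := hcov s (hS hs)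
    rw [mem_biUnion]
    exact ⟨z, hz, mem_inter.2 ⟨hs, hsz⟩⟩
  have h2 : (M.biUnion (fun z => S ∩ P z)).card ≤ M.card * 1 := by
    apply card_biUnion_le_card_mul
    intro z hz
    rw [card_le_one]
    intro u hu v hv
    rw [mem_inter] at hu hv
    by_contra hne
    exact hind z hz u hu.2 v hv.2 (hcl (mem_coe.2 hu.1) (mem_coe.2 hv.1) hne)
  have := card_le_card h1
  omega

/-- **Lemma X.** -/
lemma lemX {X : Finset V} {p a : ℕ} (hCB : CB G X (p + 1 + 1))
    (hX1 : (p + 2) * a + 1 ≤ X.card) (hX2 : X.card ≤ (p + 3) * a)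
    (ha : (p + 4) * (p + 2) ^ 3 ≤ 16 * a) :
    ∑ L ∈ clq G X (p + 1 + 1), ((p + 4) * a + bon G X a L)
      ≤ (p + 4) * a * bal (p + 1 + 1) X.card := by
  classical
  by_cases hex : ∃ L ∈ clq G X (p + 1 + 1), ∑ z ∈ L, nz G X L z = X.card
  · obtain ⟨L, hL, hsum⟩ := hex
    have hLc := ((mem_clq G).1 hL).2.1
    obtain ⟨z, hz, hza⟩ : ∃ z ∈ L, a + 1 ≤ nz G X L z := by
      by_contra hcon
      push Not at hcon
      have : ∑ z ∈ L, nz G X L z ≤ L.card * a := by
        rw [← smul_eq_mul]
        exact sum_le_card_nsmul _ _ _ (fun z hz => by have := hcon z hz; omega)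
      rw [hLc, hsum] at this
      nlinarith
    have hcover : L.biUnion (fun z => cn G X (L.erase z)) = X := by
      apply eq_of_subset_of_card_le
      · rw [biUnion_subset]; intro z _; exact cn_subset _ _
      · rw [card_parts hCB hL, hsum]
    apply hit (Q := cn G X (L.erase z)) (cn_subset _ _)
      (fun u hu v hv => parts_ind hCB hL hz hu hv) hza _ (by omega)
    have hcb := CB_of_cover (G := G) (X := X \ cn G X (L.erase z)) (M := L.erase z)
      (P := fun z => cn G X (L.erase z)) (by
        intro x hx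
        rw [mem_sdiff] at hx
        have h1 := hx.1
        rw [← hcover, mem_biUnion] at h1
        obtain ⟨z', hz', hxz'⟩ := h1
        refine ⟨z', mem_erase.2 ⟨?_, hz'⟩, hxz'⟩
        rintro rfl
        exact hx.2 hxz') (by
        intro z' hz' u hu v hv
        exact parts_ind hCB hL (mem_of_mem_erase hz') hu hv)
    rw [card_erase_of_mem hz, hLc] at hcb
    exact hcb
  · push Not at hex
    have hle : ∀ L ∈ clq G X (p + 1 + 1), ∑ z ∈ L, nz G X L z ≤ X.card - 1 := by
      intro L hL
      have h1 := sum_nz_le hCB hL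
      have h2 := hex L hL
      omega
    have hcs := facets_cs (G := G) X (p + 1)
    have hsum : ∑ L ∈ clq G X (p + 1 + 1), ∑ z ∈ L, nz G X L z
        ≤ kc G X (p + 1 + 1) * (X.card - 1) := by
      rw [kc_eq, ← smul_eq_mul]
      exact sum_le_card_nsmul _ _ _ hle
    have hz' := zyk_real' (p + 1) X hCB
    have hN1 : 1 ≤ X.card := by omega
    set N := X.card with hN
    set k := kc G X (p + 1 + 1) with hk
    have hS : ∑ L ∈ clq G X (p + 1 + 1), ((p + 4) * a + bon G X a L) ≤ k * ((p + 4) * a + 1) := by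
      rw [hk, kc_eq, ← smul_eq_mul]
      apply sum_le_card_nsmul
      intro L _
      exact Nat.add_le_add_left (bon_le _ _ _) _
    refine hS.trans ?_
    rcases Nat.eq_zero_or_pos k with h0 | hkpos
    · rw [h0, zero_mul]; exact Nat.zero_le _
    -- real computation
    have hNr : (1 : ℝ) ≤ N := by exact_mod_cast hN1
    have hkr : (0 : ℝ) < k := by exact_mod_cast hkpos
    set q : ℝ := (p : ℝ) + 2 with hq
    have hq2 : 2 ≤ q := by rw [hq]; linarith [show (0 : ℝ) ≤ p by positivity]
    have e1 : ((q * k) ^ 2 : ℝ) ≤ kc G X (p + 1) * (k * (N - 1)) := by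
      have h1 : (((p + 1 + 1) * k) ^ 2 : ℕ) ≤ kc G X (p + 1) * (k * (N - 1)) :=
        hcs.trans (Nat.mul_le_mul_left _ hsum)
      have h2 : (((((p + 1 + 1) * k) ^ 2 : ℕ)) : ℝ) ≤ ((kc G X (p + 1) * (k * (N - 1)) : ℕ) : ℝ) := by
        exact_mod_cast h1
      push_cast [Nat.cast_sub hN1] at h2
      have h3 : ((p : ℝ) + 1 + 1) = q := by rw [hq]; ring
      rw [h3] at h2
      exact h2
    have e2 : q ^ 2 * k ≤ kc G X (p + 1) * (N - 1) := by
      have h1 : k * (q ^ 2 * k) ≤ k * (kc G X (p + 1) * (N - 1)) := by nlinarith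
      exact le_of_mul_le_mul_left h1 hkr
    push_cast at hz'
    have h3 : ((p : ℝ) + 1 + 1) = q := by rw [hq]; ring
    rw [h3] at hz'
    have e3 : q ^ 2 * k ≤ q * (N / q) ^ (p + 1) * (N - 1) :=
      e2.trans (mul_le_mul_of_nonneg_right hz' (by linarith))
    have e4 : (k : ℝ) ≤ (N / q) ^ (p + 2) * ((N - 1) / N) := by
      have hqpos : 0 < q := by linarith
      have hNpos : (0 : ℝ) < N := by linarith
      have h1 : (N / q : ℝ) ^ (p + 2) * ((N - 1) / N) = (N / q) ^ (p + 1) * (N - 1) / q := by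
        rw [pow_succ (N / q : ℝ) (p + 1)]
        field_simp
      rw [h1, le_div_iff₀ hqpos]
      have h2 : q * ((k : ℝ) * q) ≤ q * ((N / q) ^ (p + 1) * (N - 1)) := by nlinarith
      exact le_of_mul_le_mul_left h2 hqpos
    have hNq : p + 2 ≤ N := by
      have : 1 ≤ a := by
        by_contra h
        have : a = 0 := by omega
        subst this
        have : 0 < (p + 4) * (p + 2) ^ 3 := by positivity
        omega
      nlinarith
    have e5 := bal_lower (q := p + 1 + 1) (by omega) (N := N) (by omega)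
    push_cast at e5
    rw [h3] at e5
    have hgoal : ((k * ((p + 4) * a + 1) : ℕ) : ℝ) ≤ (((p + 4) * a * bal (p + 1 + 1) N : ℕ) : ℝ) := by
      push_cast
      have hc : ((p : ℝ) + 4) = q + 2 := by rw [hq]; ring
      rw [hc]
      have hA0 : (0 : ℝ) ≤ a := by positivity
      have hNpos : (0 : ℝ) < N := by linarith
      have f1 : (k : ℝ) * ((q + 2) * a + 1) ≤ (N / q) ^ (p + 2) * ((N - 1) / N) * ((q + 2) * a + 1) :=
        mul_le_mul_of_nonneg_right e4 (by positivity)
      have f2 : (q + 2) * a * ((N / q) ^ (p + 1 + 1) * (1 - (q ^ 2 / (4 * N)) ^ 2))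
          ≤ (q + 2) * a * bal (p + 1 + 1) N := mul_le_mul_of_nonneg_left e5 (by positivity)
      refine f1.trans (le_trans ?_ f2)
      have hP : (0 : ℝ) ≤ (N / q) ^ (p + 2) := by positivity
      have f3 : (N - 1) / N * ((q + 2) * a + 1) ≤ (q + 2) * a * (1 - (q ^ 2 / (4 * N)) ^ 2) := by
        have g1 : (N : ℝ) ≤ (q + 1) * a := by
          have : (N : ℝ) ≤ ((p + 3) * a : ℕ) := by exact_mod_cast hX2
          push_cast at this
          rw [hq]; linarith
        have g2 : q * a + 1 ≤ N := by
          have : (((p + 2) * a + 1 : ℕ) : ℝ) ≤ N := by exact_mod_cast hX1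
          push_cast at this
          rw [hq]; linarith
        have g3 : (q + 2) * q ^ 3 ≤ 16 * a := by
          have : (((p + 4) * (p + 2) ^ 3 : ℕ) : ℝ) ≤ ((16 * a : ℕ) : ℝ) := by exact_mod_cast ha
          push_cast at this
          rw [hq, show (p : ℝ) + 2 + 2 = p + 4 by ring]; exact this
        have g4 : (q + 2) * q ^ 4 ≤ 16 * N := by
          have : (q + 2) * q ^ 4 = q * ((q + 2) * q ^ 3) := by ring
          rw [this]
          have : q * ((q + 2) * q ^ 3) ≤ q * (16 * a) := mul_le_mul_of_nonneg_left g3 (by linarith)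
          linarith
        have g5 : (1 - (q ^ 2 / (4 * N)) ^ 2 : ℝ) = (16 * N ^ 2 - q ^ 4) / (16 * N ^ 2) := by
          field_simp
          ring
        rw [g5, div_mul_eq_mul_div, ← mul_div_assoc, div_le_div_iff₀ hNpos (by positivity)]
        have g6 : (q + 2) * a * q ^ 4 ≤ 16 * a * N := by
          have : (q + 2) * a * q ^ 4 = a * ((q + 2) * q ^ 4) := by ring
          rw [this]
          have := mul_le_mul_of_nonneg_left g4 hA0
          linarith
        have g7 : (N : ℝ) * N ≤ (q + 1) * a * N := mul_le_mul_of_nonneg_right g1 hNpos.le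
        -- (N-1)((q+2)a+1) 16 N^2 ≤ (q+2)a (16N^2 - q^4) N
        have g8 : (N - 1) * ((q + 2) * a + 1) * (16 * N) ≤ (q + 2) * a * (16 * N ^ 2 - q ^ 4) := by
          linarith
        have g9 := mul_le_mul_of_nonneg_right g8 hNpos.le
        have g10 : (N - 1) * ((q + 2) * a + 1) * (16 * (N : ℝ) ^ 2)
            = (N - 1) * ((q + 2) * a + 1) * (16 * N) * N := by ring
        rw [g10]
        exact g9
      calc (N / q : ℝ) ^ (p + 2) * ((N - 1) / N) * ((q + 2) * a + 1)
          = (N / q : ℝ) ^ (p + 2) * ((N - 1) / N * ((q + 2) * a + 1)) := by ring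
        _ ≤ (N / q : ℝ) ^ (p + 2) * ((q + 2) * a * (1 - (q ^ 2 / (4 * N)) ^ 2)) :=
            mul_le_mul_of_nonneg_left f3 hP
        _ = (q + 2) * a * ((N / q) ^ (p + 1 + 1) * (1 - (q ^ 2 / (4 * N)) ^ 2)) := by ring
    exact_mod_cast hgoal

end Pool.Agent.H46.KW
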