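import Pool.Agent.H46.KW.Claim2

/-!
# The local inequality
-/

open Finset

namespace Pool.Agent.H46.KW

open Pool.Agent.H23.KT

variable {V : Type*} [DecidableEq V] {G : SimpleGraph V}

/-- Cliques through a vertex. -/
lemma sum_link {W : Finset V} {y : V} (hy : y ∈ W) (j : ℕ) (g : Finset V → ℕ) :
    ∑ L ∈ (clq G W (j + 1)).filter (fun L => y ∈ L), g (L.erase y)
      = ∑ R ∈ clq G (nb G W y) j, g R := by
  classical
  refine sum_bij' (fun L _ => L.erase y) (fun R _ => insert y R) ?_ ?_ ?_ ?_ ?_
  · intro L hL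
    rw [mem_filter, mem_clq] at hL
    obtain ⟨⟨h1, h2, h3⟩, h4⟩ := hL
    rw [mem_clq]
    refine ⟨?_, ?_, ?_⟩
    · intro u hu
      rw [mem_erase] at hu
      rw [mem_nb]
      exact ⟨h1 hu.2, h3 (mem_coe.2 h4) (mem_coe.2 hu.2) (Ne.symm hu.1)⟩
    · rw [card_erase_of_mem h4, h2]; rfl
    · exact h3.subset (by
        intro u hu
        exact mem_coe.2 (mem_of_mem_erase (mem_coe.1 hu)))
  · intro R hR
    rw [mem_clq] at hR
    obtain ⟨h1, h2, h3⟩ := hR
    have hyR : y ∉ R := fun h => G.loopless.irrefl y ((mem_nb G).1 (h1 h)).2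
    rw [mem_filter, mem_clq]
    refine ⟨⟨?_, ?_, ?_⟩, mem_insert_self _ _⟩
    · exact insert_subset hy (h1.trans (nb_subset G _ _))
    · rw [card_insert_of_notMem hyR, h2]
    · rw [coe_insert, SimpleGraph.isClique_insert]
      exact ⟨h3, fun u hu _ => ((mem_nb G).1 (h1 (mem_coe.1 hu))).2⟩
  · intro L hL
    rw [mem_filter] at hL
    exact insert_erase hL.2
  · intro R hR
    rw [mem_clq] at hR
    have hyR : y ∉ R := fun h => G.loopless.irrefl y ((mem_nb G).1 (hR.1 h)).2
    exact erase_insert hyR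
  · intro L _
    rfl

/-- **The local inequality**, abstract form. -/
lemma local_abs {W : Finset V} {p a : ℕ} (hCB : CB G W (p + 3)) (hWc : W.card ≤ (p + 3) * a + 1)
    (ha1 : p + 3 ≤ a) (ha2 : (p + 4) * (p + 2) ^ 3 ≤ 16 * a) (φ : Finset V → ℕ)
    (hφ1 : ∀ L, φ L ≤ (p + 4) * (a + 1))
    (hφ2 : ∀ y ∈ W, (p + 2) * a + 1 ≤ (nb G W y).card → ∀ L ∈ clq G W (p + 3), y ∈ L →
      φ L ≤ (p + 4) * a + bon G (nb G W y) a (L.erase y)) :
    ∑ L ∈ clq G W (p + 3), φ L ≤ (p + 4) * (a ^ (p + 3) * (a + 1)) := by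
  classical
  by_cases hex : ∀ y ∈ W, (nb G W y).card ≤ (p + 2) * a
  · -- all degrees are small
    have hk : kc G W (p + 3) ≤ a ^ (p + 3) := by
      rcases Nat.lt_or_ge ((p + 3) * a) W.card with h | h
      · exact claim hCB (by omega) hex ha1
      · have h1 := zyk (p + 2) W hCB
        have h2 := bal_mono (q := p + 3) (by omega) h
        rw [bal_mul_self (by omega)] at h2
        exact h1.trans h2
    calc ∑ L ∈ clq G W (p + 3), φ L ≤ (clq G W (p + 3)).card * ((p + 4) * (a + 1)) := by
          rw [← smul_eq_mul]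
          exact sum_le_card_nsmul _ _ _ (fun L _ => hφ1 L)
      _ = kc G W (p + 3) * ((p + 4) * (a + 1)) := by rw [kc_eq]
      _ ≤ a ^ (p + 3) * ((p + 4) * (a + 1)) := Nat.mul_le_mul_right _ hk
      _ = (p + 4) * (a ^ (p + 3) * (a + 1)) := by ring
  · push Not at hex
    obtain ⟨y1, hy1, hy1d⟩ := hex
    obtain ⟨y0, hy0, hmax⟩ := exists_max_image W (fun y => (nb G W y).card) ⟨y1, hy1⟩
    have hd : (p + 2) * a + 1 ≤ (nb G W y0).card := by
      have := hmax y1 hy1
      omega
    set d := (nb G W y0).card with hddef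
    set U := W \ nb G W y0 with hU
    have hUW : U ⊆ W := sdiff_subset
    -- each clique meets `U`
    have hmeet : ∀ L ∈ clq G W (p + 3), ∃ y ∈ U, y ∈ L := by
      intro L hL
      by_contra hcon
      push Not at hcon
      rw [mem_clq] at hL
      have h1 : L ⊆ nb G W y0 := by
        intro u hu
        by_contra hn
        exact hcon u (mem_sdiff.2 ⟨hL.1 hu, hn⟩) hu
      have h2 : CB G (nb G W y0) (p + 2) := hCB.nb hy0
      have h3 := h2 L h1 hL.2.2
      have := hL.2.1
      omega
    have hF : ∀ y ∈ U, ∑ L ∈ (clq G W (p + 3)).filter (fun L => y ∈ L), φ L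
        ≤ (p + 4) * a * bal (p + 2) d := by
      intro y hy
      have hyW := hUW hy
      rcases Nat.lt_or_ge ((p + 2) * a) (nb G W y).card with h | h
      · -- large degree
        have h1 : ∑ L ∈ (clq G W (p + 3)).filter (fun L => y ∈ L), φ L
            ≤ ∑ L ∈ (clq G W (p + 2 + 1)).filter (fun L => y ∈ L),
              ((p + 4) * a + bon G (nb G W y) a (L.erase y)) := by
          apply sum_le_sum
          intro L hL
          rw [mem_filter] at hL
          exact hφ2 y hyW h L hL.1 hL.2
        rw [sum_link hyW (p + 2) (fun R => (p + 4) * a + bon G (nb G W y) a R)] at h1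
        have hcb : CB G (nb G W y) (p + 1 + 1) := hCB.nb hyW
        have h2 := lemX (a := a) hcb h (by
          have := card_nb_lt G hyW
          omega) ha2
        refine h1.trans (h2.trans (Nat.mul_le_mul_left _ ?_))
        exact bal_mono (by omega) (hmax y hyW)
      · -- small degree
        have h1 : ∑ L ∈ (clq G W (p + 3)).filter (fun L => y ∈ L), φ L
            ≤ ∑ L ∈ (clq G W (p + 2 + 1)).filter (fun L => y ∈ L), (p + 4) * (a + 1) :=
          sum_le_sum (fun L _ => hφ1 L)
        rw [sum_link hyW (p + 2) (fun _ => (p + 4) * (a + 1)), sum_const, smul_eq_mul,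
          ← kc_eq] at h1
        have h2 := kc_nb_le hCB hyW h
        have h3 : bal (p + 2) ((p + 2) * a + 1) = a ^ (p + 1) * (a + 1) :=
          bal_mul_self_add_one (by omega) a
        have h4 := bal_mono (q := p + 2) (by omega) hd
        rw [h3] at h4
        calc _ ≤ kc G (nb G W y) (p + 2) * ((p + 4) * (a + 1)) := h1
          _ ≤ a ^ (p + 2) * ((p + 4) * (a + 1)) := Nat.mul_le_mul_right _ h2
          _ = (p + 4) * a * (a ^ (p + 1) * (a + 1)) := by ring
          _ ≤ (p + 4) * a * bal (p + 2) d := Nat.mul_le_mul_left _ h4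
    have h1 : ∑ L ∈ clq G W (p + 3), φ L
        ≤ ∑ L ∈ clq G W (p + 3), ∑ y ∈ U, if y ∈ L then φ L else 0 := by
      apply sum_le_sum
      intro L hL
      obtain ⟨y, hy, hyL⟩ := hmeet L hL
      have := single_le_sum (f := fun y => if y ∈ L then φ L else 0) (fun _ _ => Nat.zero_le _) hy
      simpa [hyL] using this
    rw [sum_comm] at h1
    have h2 : ∑ y ∈ U, ∑ L ∈ clq G W (p + 3), (if y ∈ L then φ L else 0)
        = ∑ y ∈ U, ∑ L ∈ (clq G W (p + 3)).filter (fun L => y ∈ L), φ L := by
      apply sum_congr rfl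
      intro y _
      rw [sum_filter]
    rw [h2] at h1
    have h3 : ∑ y ∈ U, ∑ L ∈ (clq G W (p + 3)).filter (fun L => y ∈ L), φ L
        ≤ U.card * ((p + 4) * a * bal (p + 2) d) := by
      rw [← smul_eq_mul]
      exact sum_le_card_nsmul _ _ _ hF
    have h4 := card_sdiff_add_card_eq_card (nb_subset G W y0)
    have h5 := bal_mul (q := p + 2) (by omega) U.card d
    have h6 : d + U.card ≤ (p + 3) * a + 1 := by
      rw [← hU, ← hddef] at h4
      omega
    have h7 := bal_mono (q := p + 3) (by omega) h6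
    have h8 : bal (p + 3) ((p + 3) * a + 1) = a ^ (p + 2) * (a + 1) :=
      bal_mul_self_add_one (by omega) a
    rw [h8] at h7
    calc ∑ L ∈ clq G W (p + 3), φ L ≤ U.card * ((p + 4) * a * bal (p + 2) d) := h1.trans h3
      _ = (p + 4) * a * (U.card * bal (p + 2) d) := by ring
      _ ≤ (p + 4) * a * (a ^ (p + 2) * (a + 1)) := Nat.mul_le_mul_left _ (h5.trans h7)
      _ = (p + 4) * (a ^ (p + 3) * (a + 1)) := by ring

section

variable [Fintype V]

open Classical in
/-- The weight of the vertex `y` of the clique `K`. -/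
noncomputable def wt (G : SimpleGraph V) (a r : ℕ) (K : Finset V) (y : V) : ℕ :=
  if a + 1 ≤ (cn G univ (K.erase y)).card then r + 1
  else if ∃ z ∈ K, a + 1 ≤ (cn G univ (K.erase z)).card then 0 else 1

lemma wt_le (a r : ℕ) (K : Finset V) (y : V) : wt G a r K y ≤ r + 1 := by
  unfold wt
  split_ifs <;> omega

lemma wt_sum (a r : ℕ) {K : Finset V} (hK : K.card = r + 1) : r + 1 ≤ ∑ y ∈ K, wt G a r K y := by
  classical
  by_cases h : ∃ z ∈ K, a + 1 ≤ (cn G univ (K.erase z)).card
  · obtain ⟨z, hz, hzc⟩ := h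
    have h1 := single_le_sum (f := fun y => wt G a r K y) (fun _ _ => Nat.zero_le _) hz
    refine le_trans ?_ h1
    unfold wt
    rw [if_pos hzc]
  · have h1 : ∀ y ∈ K, wt G a r K y = 1 := by
      intro y hy
      unfold wt
      rw [if_neg, if_neg h]
      intro hc
      exact h ⟨y, hy, hc⟩
    rw [sum_congr rfl h1, sum_const, hK]
    simp

/-- **The local inequality.** -/
lemma local_ineq {p a : ℕ} (hCB : CB G univ (p + 4))
    (hdeg : ∀ y, (nb G univ y).card ≤ (p + 3) * a + 1)
    (ha1 : p + 3 ≤ a) (ha2 : (p + 4) * (p + 2) ^ 3 ≤ 16 * a) (x : V) :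
    ∑ L ∈ clq G (nb G univ x) (p + 3), ((p + 4) * a + wt G a (p + 3) (insert x L) x)
      ≤ (p + 4) * (a ^ (p + 3) * (a + 1)) := by
  classical
  set W := nb G univ x with hW
  have hxW : x ∉ W := fun h => G.loopless.irrefl x ((mem_nb G).1 h).2
  have hCBW : CB G W (p + 3) := hCB.nb (mem_univ x)
  apply local_abs hCBW (hdeg x) ha1 ha2 (fun L => (p + 4) * a + wt G a (p + 3) (insert x L) x)
  · intro L
    have := wt_le (G := G) a (p + 3) (insert x L) x
    rw [mul_add, mul_one]
    omega
  · intro y hy hyd L hL hyL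
    apply Nat.add_le_add_left
    have hL' := (mem_clq G).1 hL
    have hxL : x ∉ L := fun h => hxW (hL'.1 h)
    unfold wt
    rw [erase_insert hxL, if_neg]
    swap
    · -- `x` is not heavy
      have h1 : Disjoint (cn G univ L) (nb G W y) := by
        rw [disjoint_left]
        intro u hu hu'
        rw [mem_cn] at hu
        rw [mem_nb] at hu'
        exact not_all hCBW hL hu'.1 hu.2
      have h2 : cn G univ L ∪ nb G W y ⊆ nb G univ y := by
        apply union_subset
        · intro u hu
          rw [mem_cn] at hu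
          rw [mem_nb]
          exact ⟨mem_univ _, hu.2 y hyL⟩
        · exact nb_mono (subset_univ _) y
      have h3 := card_le_card h2
      rw [card_union_of_disjoint h1] at h3
      have h4 := hdeg y
      have h5 : (p + 3) * a = (p + 2) * a + a := by ring
      omega
    · split_ifs with hex
      · exact Nat.zero_le _
      · push Not at hex
        have hb : bon G (nb G W y) a (L.erase y) = 1 := by
          unfold bon
          rw [if_pos]
          intro z hz
          rw [mem_erase] at hz
          have h1 := hex z (mem_insert_of_mem hz.2)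
          have h2 : nz G (nb G W y) (L.erase y) z ≤ (cn G univ ((insert x L).erase z)).card := by
            unfold nz
            apply card_le_card
            intro u hu
            rw [mem_cn, mem_nb] at hu
            rw [mem_cn]
            refine ⟨mem_univ _, ?_⟩
            intro s hs
            rw [mem_erase, mem_insert] at hs
            rcases hs with ⟨hsz, rfl | hs⟩
            · exact ((mem_nb G).1 hu.1.1).2
            · by_cases hsy : s = y
              · rw [hsy]; exact hu.1.2
              · exact hu.2 s (mem_erase.2 ⟨hsz, mem_erase.2 ⟨hsy, hs⟩⟩)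
          omega
        rw [hb]

/-- **The global bound.** -/
theorem global {p a : ℕ} (hCB : CB G univ (p + 4))
    (hdeg : ∀ y, (nb G univ y).card ≤ (p + 3) * a + 1)
    (ha1 : p + 3 ≤ a) (ha2 : (p + 4) * (p + 2) ^ 3 ≤ 16 * a) :
    kc G univ (p + 4) * ((p + 4) * a + 1) ≤ a ^ (p + 3) * (a + 1) * Fintype.card V := by
  classical
  have h1 : ∑ x : V, ∑ L ∈ clq G (nb G univ x) (p + 3),
      ((p + 4) * a + wt G a (p + 3) (insert x L) x)
      ≤ Fintype.card V * ((p + 4) * (a ^ (p + 3) * (a + 1))) := by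
    rw [← card_univ, ← smul_eq_mul]
    exact sum_le_card_nsmul _ _ _ (fun x _ => local_ineq hCB hdeg ha1 ha2 x)
  have h2 : ∑ x : V, ∑ L ∈ clq G (nb G univ x) (p + 3),
      ((p + 4) * a + wt G a (p + 3) (insert x L) x)
      = ∑ K ∈ clq G univ (p + 4), ∑ x ∈ K, ((p + 4) * a + wt G a (p + 3) K x) := by
    have h3 : ∀ x : V, ∑ L ∈ clq G (nb G univ x) (p + 3),
        ((p + 4) * a + wt G a (p + 3) (insert x L) x)
        = ∑ K ∈ (clq G univ (p + 3 + 1)).filter (fun K => x ∈ K),
          ((p + 4) * a + wt G a (p + 3) K x) := by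
      intro x
      rw [← sum_link (mem_univ x) (p + 3)
        (fun L => (p + 4) * a + wt G a (p + 3) (insert x L) x)]
      apply sum_congr rfl
      intro K hK
      rw [mem_filter] at hK
      rw [insert_erase hK.2]
    rw [sum_congr rfl (fun x _ => h3 x)]
    simp_rw [sum_filter]
    rw [sum_comm]
    apply sum_congr rfl
    intro K _
    rw [← sum_filter]
    apply sum_congr _ (fun _ _ => rfl)
    ext x
    simp
  rw [h2] at h1
  have h4 : ∀ K ∈ clq G univ (p + 4), (p + 4) * ((p + 4) * a + 1)
      ≤ ∑ x ∈ K, ((p + 4) * a + wt G a (p + 3) K x) := by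
    intro K hK
    have hc := ((mem_clq G).1 hK).2.1
    have h5 := wt_sum (G := G) a (p + 3) (K := K) hc
    rw [sum_add_distrib, sum_const, hc, smul_eq_mul, mul_add, mul_one]
    omega
  have h5 := card_nsmul_le_sum _ _ _ h4
  rw [smul_eq_mul, ← kc_eq] at h5
  have h6 : (p + 4) * (kc G univ (p + 4) * ((p + 4) * a + 1))
      ≤ (p + 4) * (a ^ (p + 3) * (a + 1) * Fintype.card V) := by
    calc (p + 4) * (kc G univ (p + 4) * ((p + 4) * a + 1))
        = kc G univ (p + 4) * ((p + 4) * ((p + 4) * a + 1)) := by ring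
      _ ≤ Fintype.card V * ((p + 4) * (a ^ (p + 3) * (a + 1))) := h5.trans h1
      _ = (p + 4) * (a ^ (p + 3) * (a + 1) * Fintype.card V) := by ring
  exact Nat.le_of_mul_le_mul_left h6 (by omega)

end

end Pool.Agent.H46.KW
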