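import Mathlib

/-!
# The Turán graph with one vertex more than a balanced one
-/

open Finset

namespace Pool.Agent.H46.KW

/-- The `j`-th vertex of the class of `i`. -/
def cv (R a : ℕ) (i : ℕ) (hi : i < R) (j : ℕ) (hj : j < a) : Fin (R * a + 1) :=
  ⟨i + R * j, by
    have : R * (j + 1) ≤ R * a := Nat.mul_le_mul_left _ hj
    rw [mul_add, mul_one] at this
    omega⟩

lemma tur_deg (R a : ℕ) (hR : 1 ≤ R) (v : Fin ((R + 1) * a + 1)) :
    ((SimpleGraph.turanGraph ((R + 1) * a + 1) (R + 1)).neighborSet v).ncard ≤ R * a + 1 := by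
  classical
  set I : Finset (Fin ((R + 1) * a + 1)) := (univ : Finset (Fin a)).image
    (fun j => cv (R + 1) a (v.1 % (R + 1)) (Nat.mod_lt _ (by omega)) j.1 j.2) with hI
  have hIc : I.card = a := by
    rw [hI, card_image_of_injective, card_univ, Fintype.card_fin]
    intro j j' h
    have h1 := congrArg Fin.val h
    simp only [cv] at h1
    have h2 : (R + 1) * j.1 = (R + 1) * j'.1 := by omega
    exact Fin.ext (Nat.eq_of_mul_eq_mul_left (by omega) h2)
  have h1 : (SimpleGraph.turanGraph ((R + 1) * a + 1) (R + 1)).neighborSet v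
      ⊆ ((univ \ I : Finset (Fin ((R + 1) * a + 1))) : Set (Fin ((R + 1) * a + 1))) := by
    intro w hw
    rw [SimpleGraph.mem_neighborSet] at hw
    have hw' : v.1 % (R + 1) ≠ w.1 % (R + 1) := hw
    rw [mem_coe, mem_sdiff]
    refine ⟨mem_univ _, ?_⟩
    intro h
    rw [hI, mem_image] at h
    obtain ⟨j, _, rfl⟩ := h
    apply hw'
    simp only [cv]
    rw [Nat.add_mul_mod_self_left, Nat.mod_mod]
  have h2 := Set.ncard_le_ncard h1 (finite_toSet _)
  rw [Set.ncard_coe_finset] at h2
  have h3 := card_sdiff_add_card_eq_card (subset_univ I)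
  rw [hIc, card_univ, Fintype.card_fin] at h3
  have h4 : (R + 1) * a = R * a + a := by ring
  omega

lemma tur_lower (R a : ℕ) : a ^ R * (a + 1) ≤ {s : Finset (Fin ((R + 1) * a + 1)) |
    (SimpleGraph.turanGraph ((R + 1) * a + 1) (R + 1)).IsNClique (R + 1) s}.ncard := by
  classical
  set A : Fin (R + 1) → Finset ℕ := fun i => if i = 0 then range (a + 1) else range a with hA
  have hAc : (Fintype.piFinset A).card = a ^ R * (a + 1) := by
    rw [Fintype.card_piFinset, Fin.prod_univ_succ]
    simp only [hA, if_true, Fin.succ_ne_zero, if_false, card_range, prod_const, card_univ,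
      Fintype.card_fin]
    ring
  have hlt : ∀ g ∈ Fintype.piFinset A, ∀ i : Fin (R + 1), i.1 + (R + 1) * g i < (R + 1) * a + 1 := by
    intro g hg i
    rw [Fintype.mem_piFinset] at hg
    have h1 := hg i
    by_cases hi : i = 0
    · subst hi
      simp only [hA, if_true, mem_range] at h1
      have h2 : (R + 1) * g 0 ≤ (R + 1) * a := Nat.mul_le_mul_left _ (by omega)
      rw [Fin.val_zero]
      omega
    · simp only [hA, hi, if_false, mem_range] at h1
      have h2 : (R + 1) * (g i + 1) ≤ (R + 1) * a := Nat.mul_le_mul_left _ (by omega)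
      have h3 := i.2
      rw [mul_add, mul_one] at h2
      omega
  set F : (Fin (R + 1) → ℕ) → Fin (R + 1) → Fin ((R + 1) * a + 1) := fun g i =>
    Fin.ofNat _ (i.1 + (R + 1) * g i) with hF
  have hFv : ∀ g ∈ Fintype.piFinset A, ∀ i, (F g i).1 = i.1 + (R + 1) * g i := by
    intro g hg i
    simp only [hF, Fin.ofNat]
    exact Nat.mod_eq_of_lt (hlt g hg i)
  have hmod : ∀ g ∈ Fintype.piFinset A, ∀ i, (F g i).1 % (R + 1) = i.1 := by
    intro g hg i
    rw [hFv g hg, Nat.add_mul_mod_self_left, Nat.mod_eq_of_lt i.2]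
  have hinj : ∀ g ∈ Fintype.piFinset A, Function.Injective (F g) := by
    intro g hg i j hij
    apply Fin.ext
    rw [← hmod g hg i, ← hmod g hg j, hij]
  rw [← hAc, ← Set.ncard_coe_finset]
  refine Set.ncard_le_ncard_of_injOn (fun g => (univ : Finset (Fin (R + 1))).image (F g)) ?_ ?_
    (Set.toFinite _)
  · intro g hg
    rw [mem_coe] at hg
    rw [Set.mem_setOf_eq, SimpleGraph.isNClique_iff]
    refine ⟨?_, ?_⟩
    · intro u hu w hw hne
      rw [mem_coe, mem_image] at hu hw
      obtain ⟨i, _, rfl⟩ := hu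
      obtain ⟨j, _, rfl⟩ := hw
      show (F g i).1 % (R + 1) ≠ (F g j).1 % (R + 1)
      rw [hmod g hg, hmod g hg]
      intro h
      exact hne (by rw [Fin.ext h])
    · rw [card_image_of_injective _ (hinj g hg), card_univ, Fintype.card_fin]
  · intro g hg g' hg' h
    rw [mem_coe] at hg hg'
    funext i
    have h1 : F g i ∈ (univ : Finset (Fin (R + 1))).image (F g') := by
      have : F g i ∈ (univ : Finset (Fin (R + 1))).image (F g) := mem_image.2 ⟨i, mem_univ _, rfl⟩
      have h' : (univ : Finset (Fin (R + 1))).image (F g)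
        = (univ : Finset (Fin (R + 1))).image (F g') := h
      rwa [h'] at this
    rw [mem_image] at h1
    obtain ⟨j, _, hj⟩ := h1
    have h2 : j = i := by
      apply Fin.ext
      rw [← hmod g' hg' j, ← hmod g hg i, hj]
    subst h2
    have h3 := congrArg Fin.val hj
    rw [hFv g' hg', hFv g hg] at h3
    have h4 : (R + 1) * g j = (R + 1) * g' j := by omega
    exact Nat.eq_of_mul_eq_mul_left (by omega) h4

end Pool.Agent.H46.KW
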