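import Pool.Agent.H23.KT.Gen
import Pool.Agent.H46.KW.Bal

/-!
# Zykov type bounds and facets of cliques
-/

open Finset

namespace Pool.Agent.H46.KW

open Pool.Agent.H23.KT

variable {V : Type*} [DecidableEq V] {G : SimpleGraph V}

open Classical in
/-- The common neighbours of `R` in `W`. -/
noncomputable def cn (G : SimpleGraph V) (W R : Finset V) : Finset V :=
  W.filter (fun v => ∀ s ∈ R, G.Adj s v)

lemma mem_cn {W R : Finset V} {v : V} : v ∈ cn G W R ↔ v ∈ W ∧ ∀ s ∈ R, G.Adj s v := by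
  classical
  unfold cn
  rw [mem_filter]

lemma cn_subset (W R : Finset V) : cn G W R ⊆ W := fun _ h => (mem_cn.1 h).1

lemma kc_mono' {W W' : Finset V} (h : W ⊆ W') (j : ℕ) : kc G W j ≤ kc G W' j := kc_mono G h j

lemma nb_mono {W W' : Finset V} (h : W ⊆ W') (x : V) : nb G W x ⊆ nb G W' x := by
  intro y hy
  rw [mem_nb] at hy ⊢
  exact ⟨h hy.1, hy.2⟩

/-- Cliques meeting `U`. -/
lemma kc_le_sum (W : Finset V) (j : ℕ) (U : Finset V) : U ⊆ W →
    kc G W (j + 1) ≤ ∑ u ∈ U, kc G (nb G W u) j + kc G (W \ U) (j + 1) := by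
  induction U using Finset.induction_on with
  | empty => intro _; simp
  | insert u U hu ih =>
    intro hU
    have h1 := ih (fun x hx => hU (mem_insert_of_mem hx))
    have h2 : u ∈ W \ U := mem_sdiff.2 ⟨hU (mem_insert_self _ _), hu⟩
    have h3 := kc_succ G h2 j
    have h4 : (W \ U).erase u = W \ insert u U := by
      ext x
      simp only [mem_erase, mem_sdiff, mem_insert]
      tauto
    rw [h4] at h3
    have h5 := kc_mono' (G := G) (nb_mono (G := G) (sdiff_subset (s := W) (t := U)) u) j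
    rw [sum_insert hu]
    omega

lemma kc_one (W : Finset V) : kc G W 1 ≤ W.card := by
  have := kc_le_choose G W 1
  rwa [Nat.choose_one_right] at this

/-- **Zykov's bound.** -/
lemma zyk : ∀ (q : ℕ) (W : Finset V), CB G W (q + 1) → kc G W (q + 1) ≤ bal (q + 1) W.card := by
  intro q
  induction q with
  | zero => intro W _; rw [bal_one]; exact kc_one W
  | succ q ih =>
    intro W hW
    rcases W.eq_empty_or_nonempty with rfl | hne
    · rw [kc_eq_zero G (by simp)]
      exact Nat.zero_le _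
    · obtain ⟨y, hy, hmax⟩ := exists_max_image W (fun y => kc G (nb G W y) (q + 1)) hne
      have h1 := kc_le_sum (G := G) W (q + 1) (W \ nb G W y) sdiff_subset
      have h2 : W \ (W \ nb G W y) = nb G W y := Finset.sdiff_sdiff_eq_self (nb_subset G W y)
      have hCB : CB G (nb G W y) (q + 1) := hW.nb hy
      rw [h2, kc_eq_zero_of_CB hCB (by omega), add_zero] at h1
      have h3 : ∑ u ∈ W \ nb G W y, kc G (nb G W u) (q + 1)
          ≤ (W \ nb G W y).card * kc G (nb G W y) (q + 1) := by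
        rw [← smul_eq_mul]
        exact sum_le_card_nsmul _ _ _ (fun u hu => hmax u (mem_sdiff.1 hu).1)
      have h4 := ih _ hCB
      have h5 := card_sdiff_add_card_eq_card (nb_subset G W y)
      calc kc G W (q + 1 + 1) ≤ (W \ nb G W y).card * kc G (nb G W y) (q + 1) := h1.trans h3
        _ ≤ (W \ nb G W y).card * bal (q + 1) (nb G W y).card := Nat.mul_le_mul_left _ h4
        _ ≤ bal (q + 1 + 1) ((nb G W y).card + (W \ nb G W y).card) := bal_mul (by omega) _ _
        _ = bal (q + 1 + 1) W.card := by rw [Nat.add_comm (nb G W y).card, h5]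

/-- Zykov's bound, real form. -/
lemma zyk_real : ∀ (q : ℕ) (W : Finset V), CB G W (q + 1) →
    (kc G W (q + 1) : ℝ) ≤ (W.card / (q + 1) : ℝ) ^ (q + 1) := by
  intro q
  induction q with
  | zero =>
    intro W _
    have := kc_one (G := G) W
    have h : (kc G W 1 : ℝ) ≤ W.card := by exact_mod_cast this
    simpa using h
  | succ q ih =>
    intro W hW
    rcases W.eq_empty_or_nonempty with rfl | hne
    · rw [kc_eq_zero G (by simp)]
      simp
    · obtain ⟨y, hy, hmax⟩ := exists_max_image W (fun y => kc G (nb G W y) (q + 1)) hne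
      have h1 := kc_le_sum (G := G) W (q + 1) (W \ nb G W y) sdiff_subset
      have h2 : W \ (W \ nb G W y) = nb G W y := Finset.sdiff_sdiff_eq_self (nb_subset G W y)
      have hCB : CB G (nb G W y) (q + 1) := hW.nb hy
      rw [h2, kc_eq_zero_of_CB hCB (by omega), add_zero] at h1
      have h3 : ∑ u ∈ W \ nb G W y, kc G (nb G W u) (q + 1)
          ≤ (W \ nb G W y).card * kc G (nb G W y) (q + 1) := by
        rw [← smul_eq_mul]
        exact sum_le_card_nsmul _ _ _ (fun u hu => hmax u (mem_sdiff.1 hu).1)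
      have h4 := ih _ hCB
      have h5 := card_sdiff_add_card_eq_card (nb_subset G W y)
      have h6 : (kc G W (q + 1 + 1) : ℝ) ≤ (W \ nb G W y).card * kc G (nb G W y) (q + 1) := by
        exact_mod_cast h1.trans h3
      set d : ℝ := ((nb G W y).card : ℝ) with hd
      set u : ℝ := ((W \ nb G W y).card : ℝ) with hu
      have h7 : u + d = (W.card : ℝ) := by rw [hu, hd]; exact_mod_cast h5
      have hd0 : 0 ≤ d := by positivity
      have hu0 : 0 ≤ u := by positivity
      rw [← h7]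
      push_cast
      have hq : (0 : ℝ) < q + 1 := by positivity
      have hq2 : (0 : ℝ) < q + 1 + 1 := by positivity
      have t := tangent (q + 1) (x := (u + d) / (q + 1 + 1)) (z := d / (q + 1)) (by positivity)
        (by positivity)
      push_cast at t
      have e1 : ((q : ℝ) + 1 + 1) * ((u + d) / (q + 1 + 1)) * (d / (q + 1)) ^ (q + 1)
          = (u + d) * (d / (q + 1)) ^ (q + 1) := by
        field_simp
      have e2 : ((q : ℝ) + 1) * (d / (q + 1)) ^ (q + 1 + 1) = d * (d / (q + 1)) ^ (q + 1) := by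
        rw [pow_succ (d / ((q : ℝ) + 1)) (q + 1)]
        field_simp
      rw [e1, e2] at t
      calc (kc G W (q + 1 + 1) : ℝ) ≤ u * kc G (nb G W y) (q + 1) := h6
        _ ≤ u * (d / (q + 1)) ^ (q + 1) := mul_le_mul_of_nonneg_left h4 hu0
        _ ≤ ((u + d) / (q + 1 + 1)) ^ (q + 1 + 1) := by linarith

/-- Bound for the cliques of one vertex less. -/
lemma zyk_real' : ∀ (p : ℕ) (W : Finset V), CB G W (p + 1) →
    (kc G W p : ℝ) ≤ (p + 1) * (W.card / (p + 1) : ℝ) ^ p := by
  intro p
  induction p with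
  | zero => intro W _; simp [kc_zero]
  | succ p ih =>
    intro W hW
    rcases W.eq_empty_or_nonempty with rfl | hne
    · rw [kc_eq_zero G (by simp)]
      simp
    · obtain ⟨y, hy, hmax⟩ := exists_max_image W (fun y => kc G (nb G W y) p) hne
      have h1 := kc_le_sum (G := G) W p (W \ nb G W y) sdiff_subset
      have h2 : W \ (W \ nb G W y) = nb G W y := Finset.sdiff_sdiff_eq_self (nb_subset G W y)
      have hCB : CB G (nb G W y) (p + 1) := hW.nb hy
      rw [h2] at h1
      have h3 : ∑ u ∈ W \ nb G W y, kc G (nb G W u) p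
          ≤ (W \ nb G W y).card * kc G (nb G W y) p := by
        rw [← smul_eq_mul]
        exact sum_le_card_nsmul _ _ _ (fun u hu => hmax u (mem_sdiff.1 hu).1)
      have h4 := ih _ hCB
      have h4' := zyk_real p _ hCB
      have h5 := card_sdiff_add_card_eq_card (nb_subset G W y)
      have h6 : (kc G W (p + 1) : ℝ) ≤ (W \ nb G W y).card * kc G (nb G W y) p
          + kc G (nb G W y) (p + 1) := by
        exact_mod_cast h1.trans (Nat.add_le_add_right h3 _)
      set d : ℝ := ((nb G W y).card : ℝ) with hd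
      set u : ℝ := ((W \ nb G W y).card : ℝ) with hu
      have h7 : u + d = (W.card : ℝ) := by rw [hu, hd]; exact_mod_cast h5
      have hd0 : 0 ≤ d := by positivity
      have hu0 : 0 ≤ u := by positivity
      rw [← h7]
      push_cast
      have hq : (0 : ℝ) < p + 1 := by positivity
      have hq2 : (0 : ℝ) < p + 1 + 1 := by positivity
      have t := tangent p (x := (u + d) / (p + 1 + 1)) (z := d / (p + 1)) (by positivity)
        (by positivity)
      have t2 : ((p : ℝ) + 1 + 1) * (((p : ℝ) + 1) * ((u + d) / (p + 1 + 1)) * (d / (p + 1)) ^ p)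
          ≤ (p + 1 + 1) * (((u + d) / (p + 1 + 1)) ^ (p + 1) + p * (d / (p + 1)) ^ (p + 1)) :=
        mul_le_mul_of_nonneg_left t hq2.le
      have e1 : ((p : ℝ) + 1 + 1) * (((p : ℝ) + 1) * ((u + d) / (p + 1 + 1)) * (d / (p + 1)) ^ p)
          = (p + 1) * (u + d) * (d / (p + 1)) ^ p := by
        field_simp
      have e2 : (d / ((p : ℝ) + 1)) ^ (p + 1) = d / (p + 1) * (d / (p + 1)) ^ p := by
        rw [pow_succ]; ring
      have e3 : ((p : ℝ) + 1) * d * (d / (p + 1)) ^ p
          = (p + 1) ^ 2 * (d / ((p : ℝ) + 1)) ^ (p + 1) := by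
        rw [e2]; field_simp
      rw [e1] at t2
      calc (kc G W (p + 1) : ℝ) ≤ u * kc G (nb G W y) p + kc G (nb G W y) (p + 1) := h6
        _ ≤ u * ((p + 1) * (d / (p + 1)) ^ p) + (d / (p + 1)) ^ (p + 1) :=
            add_le_add (mul_le_mul_of_nonneg_left h4 hu0) h4'
        _ ≤ (p + 1 + 1) * ((u + d) / (p + 1 + 1)) ^ (p + 1) := by nlinarith

/-! ### Facets -/

/-- Double counting of pairs (clique, vertex) and (facet, common neighbour). -/
lemma sum_facets (W : Finset V) (p : ℕ) (f : Finset V → V → ℕ) :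
    ∑ L ∈ clq G W (p + 1), ∑ z ∈ L, f (L.erase z) z
      = ∑ R ∈ clq G W p, ∑ z ∈ cn G W R, f R z := by
  classical
  rw [sum_sigma', sum_sigma']
  refine sum_bij' (fun s _ => (⟨s.1.erase s.2, s.2⟩ : Σ _ : Finset V, V))
    (fun s _ => (⟨insert s.2 s.1, s.2⟩ : Σ _ : Finset V, V)) ?_ ?_ ?_ ?_ ?_
  · rintro ⟨L, z⟩ h
    rw [mem_sigma, mem_clq] at h
    obtain ⟨⟨h1, h2, h3⟩, h4⟩ := h
    dsimp only at h1 h2 h3 h4
    rw [mem_sigma, mem_clq, mem_cn]
    dsimp only
    refine ⟨⟨(erase_subset _ _).trans h1, ?_, ?_⟩, h1 h4, ?_⟩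
    · rw [card_erase_of_mem h4, h2]; rfl
    · exact h3.subset (by
        intro y hy
        exact mem_coe.2 (mem_of_mem_erase (mem_coe.1 hy)))
    · intro s hs
      rw [mem_erase] at hs
      exact h3 (mem_coe.2 hs.2) (mem_coe.2 h4) hs.1
  · rintro ⟨R, z⟩ h
    rw [mem_sigma, mem_clq, mem_cn] at h
    obtain ⟨⟨h1, h2, h3⟩, h4, h5⟩ := h
    dsimp only at h1 h2 h3 h4 h5
    have hz : z ∉ R := fun hz => G.loopless.irrefl z (h5 z hz)
    rw [mem_sigma, mem_clq]
    dsimp only
    refine ⟨⟨insert_subset h4 h1, ?_, ?_⟩, mem_insert_self _ _⟩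
    · rw [card_insert_of_notMem hz, h2]
    · rw [coe_insert, SimpleGraph.isClique_insert]
      exact ⟨h3, fun y hy _ => (h5 y (mem_coe.1 hy)).symm⟩
  · rintro ⟨L, z⟩ h
    rw [mem_sigma] at h
    dsimp only at h ⊢
    rw [insert_erase h.2]
  · rintro ⟨R, z⟩ h
    rw [mem_sigma, mem_clq, mem_cn] at h
    obtain ⟨_, _, h5⟩ := h
    dsimp only at h5 ⊢
    have hz : z ∉ R := fun hz => G.loopless.irrefl z (h5 z hz)
    rw [erase_insert hz]
  · rintro ⟨L, z⟩ _
    rfl

/-- The size of the part of `z` determined by the clique `L`. -/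
noncomputable def nz (G : SimpleGraph V) (W L : Finset V) (z : V) : ℕ := (cn G W (L.erase z)).card

lemma sum_card_cn (W : Finset V) (p : ℕ) :
    ∑ R ∈ clq G W p, (cn G W R).card = (p + 1) * kc G W (p + 1) := by
  have h := sum_facets (G := G) W p (fun _ _ => 1)
  simp only [sum_const, smul_eq_mul, mul_one] at h
  rw [← h, kc_eq, mul_comm, ← smul_eq_mul, ← sum_const]
  apply sum_congr rfl
  intro L hL
  exact ((mem_clq G).1 hL).2.1

/-- Cauchy–Schwarz. -/
lemma facets_cs (W : Finset V) (p : ℕ) :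
    ((p + 1) * kc G W (p + 1)) ^ 2 ≤ kc G W p * ∑ L ∈ clq G W (p + 1), ∑ z ∈ L, nz G W L z := by
  have h := sum_facets (G := G) W p (fun R _ => (cn G W R).card)
  have h1 : ∑ L ∈ clq G W (p + 1), ∑ z ∈ L, nz G W L z
      = ∑ R ∈ clq G W p, (cn G W R).card ^ 2 := by
    unfold nz
    rw [h]
    apply sum_congr rfl
    intro R _
    rw [sum_const, smul_eq_mul, sq]
  rw [h1, ← sum_card_cn, kc_eq]
  exact sq_sum_le_card_mul_sum_sq

/-! ### The parts determined by a clique of maximum size -/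

section parts

variable {W L : Finset V} {q : ℕ}

lemma clq_insert {W R : Finset V} {p : ℕ} {v : V} (hR : R ∈ clq G W p) (hv : v ∈ cn G W R) :
    insert v R ∈ clq G W (p + 1) := by
  rw [mem_clq] at hR ⊢
  rw [mem_cn] at hv
  have hz : v ∉ R := fun hz => G.loopless.irrefl v (hv.2 v hz)
  refine ⟨insert_subset hv.1 hR.1, ?_, ?_⟩
  · rw [card_insert_of_notMem hz, hR.2.1]
  · rw [coe_insert, SimpleGraph.isClique_insert]
    exact ⟨hR.2.2, fun y hy _ => (hv.2 y (mem_coe.1 hy)).symm⟩

lemma clq_empty_of_CB (h : CB G W q) : clq G W (q + 1) = ∅ := by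
  rw [eq_empty_iff_forall_notMem]
  intro S hS
  rw [mem_clq] at hS
  have := h S hS.1 hS.2.2
  omega

lemma clq_erase' {z : V} (hL : L ∈ clq G W (q + 1)) (hz : z ∈ L) : L.erase z ∈ clq G W q := by
  rw [mem_clq] at hL ⊢
  refine ⟨(erase_subset _ _).trans hL.1, ?_, ?_⟩
  · rw [card_erase_of_mem hz, hL.2.1]; rfl
  · exact hL.2.2.subset (by
      intro y hy
      exact mem_coe.2 (mem_of_mem_erase (mem_coe.1 hy)))

/-- No vertex is adjacent to all of `L`. -/
lemma not_all (hCB : CB G W (q + 1)) (hL : L ∈ clq G W (q + 1)) {v : V} (hv : v ∈ W) :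
    ¬ ∀ s ∈ L, G.Adj s v := by
  intro h
  have := clq_insert hL (mem_cn.2 ⟨hv, h⟩)
  rw [clq_empty_of_CB hCB] at this
  exact notMem_empty _ this

lemma parts_disj (hCB : CB G W (q + 1)) (hL : L ∈ clq G W (q + 1)) {z z' : V}
    (hne : z ≠ z') : Disjoint (cn G W (L.erase z)) (cn G W (L.erase z')) := by
  rw [disjoint_left]
  intro v hv hv'
  rw [mem_cn] at hv hv'
  apply not_all hCB hL hv.1
  intro s hs
  by_cases h : s = z
  · exact hv'.2 s (mem_erase.2 ⟨fun h' => hne (h ▸ h'), hs⟩)
  · exact hv.2 s (mem_erase.2 ⟨h, hs⟩)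

lemma parts_ind (hCB : CB G W (q + 1)) (hL : L ∈ clq G W (q + 1)) {z : V} (hz : z ∈ L)
    {u v : V} (hu : u ∈ cn G W (L.erase z)) (hv : v ∈ cn G W (L.erase z)) : ¬ G.Adj u v := by
  intro huv
  have h1 := clq_insert (clq_erase' hL hz) hu
  have h2 : v ∈ cn G W (insert u (L.erase z)) := by
    rw [mem_cn] at hv ⊢
    refine ⟨hv.1, fun s hs => ?_⟩
    rcases mem_insert.1 hs with rfl | hs
    · exact huv
    · exact hv.2 s hs
  have h3 := clq_insert h1 h2
  rw [clq_empty_of_CB hCB] at h3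
  exact notMem_empty _ h3

lemma self_mem_part (hL : L ∈ clq G W (q + 1)) {z : V} (hz : z ∈ L) :
    z ∈ cn G W (L.erase z) := by
  rw [mem_clq] at hL
  rw [mem_cn]
  refine ⟨hL.1 hz, fun s hs => ?_⟩
  rw [mem_erase] at hs
  exact hL.2.2 (mem_coe.2 hs.2) (mem_coe.2 hz) hs.1

lemma card_parts (hCB : CB G W (q + 1)) (hL : L ∈ clq G W (q + 1)) {M : Finset V} :
    (M.biUnion (fun z => cn G W (L.erase z))).card = ∑ z ∈ M, nz G W L z := by
  rw [card_biUnion]
  · rfl
  · intro z _ z' _ hne
    exact parts_disj hCB hL hne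

lemma sum_nz_le (hCB : CB G W (q + 1)) (hL : L ∈ clq G W (q + 1)) :
    ∑ z ∈ L, nz G W L z ≤ W.card := by
  rw [← card_parts hCB hL]
  apply card_le_card
  rw [biUnion_subset]
  intro z _
  exact cn_subset _ _

end parts

end Pool.Agent.H46.KW
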